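import Pool.Agent.helper73.BS.Spec2
import Pool.Agent.helper73.NH.Asm
import Pool.Agent.helper44.BS.XI
import Pool.Agent.helper49.BS.XA
import Pool.Agent.helper44.BS.XZ
import Pool.Agent.helper23.BS.JE
import Pool.Agent.helper45.BS.JZ
import Pool.Agent.helper26.BS.JN
import Pool.Agent.helper89.BS.JS
import Pool.Agent.helper39.BS.JW
import Pool.Agent.helper23.BS.EI
import Pool.Agent.helper89.BS.ZG
import Pool.Agent.helper96.BS.ZC
import Pool.Agent.helper23.BS.ZE
import Pool.Agent.helper23.BS.RL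
import Pool.Agent.helper89.BS.RU
import Pool.Agent.helper75.BS.RS
import Pool.Agent.helper89.BS.RC
import Pool.Agent.helper26.BS.RA
import Pool.Agent.helper49.BS.FF
import Pool.Agent.helper85.BS.GL
import Pool.Agent.helper11.BS.GE
import Pool.Agent.helper31.BS.GD
import Pool.Agent.helper72.BS.GI
import Pool.Agent.helper6.BS.CL
import Pool.Agent.helper85.BS.AD
import Pool.Agent.helper57.BS.LC
import Pool.Agent.helper57.BS.PW
import Pool.Agent.helper49.BS.EG
import Pool.Agent.helper31.BS.NX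
import Pool.Agent.helper64.BS.MX

/-!
# Project bs: assembly of the blocks A, B, C
-/

set_option autoImplicit false

namespace Pool.Agent.BS

open Matrix Module Pool.Agent.UG Pool.Agent.H48SL Pool.Agent.SHL

theorem uEXJ : UG.EXJ_stmt := UG.EXJ
theorem uLG : UG.LG_stmt := UG.LG UG.EXJ
theorem uLIN : UG.LIN_stmt := UG.LIN UG.EXJ uLG

theorem tXI : XI_stmt := XI
theorem tXA : XA_stmt := XA
theorem tXZ : XZ_stmt := XZ tXA
theorem tJE : JE_stmt := JE uLG
theorem tJZ : JZ_stmt := JZ tXI tXA tXZ uEXJ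
theorem tJN : JN_stmt := JN tXI tXA tXZ tJE uEXJ
theorem tJS : JS_stmt := JS tXI tXA tXZ
theorem tJW : JW_stmt := JW tJE
theorem tEI : EI_stmt := EI uLG
theorem tZG : ZG_stmt := ZG
theorem tZC : ZC_stmt := ZC tZG
theorem tZE : ZE_stmt := ZE uLG
theorem tRL : RL_stmt := RL uLG uLIN uEXJ tZG
theorem tRU : RU_stmt := RU tJZ uEXJ tZG
theorem tRS : RS_stmt := RS tZG tZC tZE tRL tRU uLG tEI uEXJ
theorem tRC : RC_stmt := RC tZG tZC tZE tRL tRS tEI uEXJ
theorem tRA : RA_stmt := RA tZG tZC tZE tRL tRU tRS tJS tEI uEXJ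
theorem tFF : FF_stmt := FF tZG tRL tRU tRS tRC tRA tJE uEXJ
theorem tGL : GL_stmt := GL_thm
theorem tGE : GE_stmt := GE tGL uEXJ uLG
theorem tGD : GD_stmt := GD tGL
theorem tGI : GI_stmt := GI
theorem tCL : CL_stmt := CL tFF tGE tGD tJE tJW tZG tZC tZE uLG uEXJ
theorem tAD : AD_stmt := AD tFF tJE tGI tZG tZC tZE tRS tEI uEXJ
theorem tLC : LC_stmt := LC
theorem tPW : PW_stmt := PW tLC uLG uEXJ
theorem tEG : EG_stmt := EG uEXJ
theorem tNX : NX_stmt := NX tFF tGE tGI tJE tJZ tJN tPW tEG tZG tRU tEI uEXJ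
theorem tMX : MX_stmt := MX tFF tAD tGI tJE tJZ tPW UG.CRA tZG tZC tZE tRU tRS tEI uEXJ

end Pool.Agent.BS
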