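import Pool.Agent.helper73.BS.Asm1

/-!
# Project bs: assembly of the blocks D, E, F and Theorem B
-/

set_option autoImplicit false

namespace Pool.Agent.BS

open Matrix Module Pool.Agent.UG Pool.Agent.H48SL Pool.Agent.SHL

/-- every solvable `P` has a large subgroup with a structure `FS` -/
theorem FSE (hFU : FU_stmt) (hFC : FC_stmt) (hUT : UT_stmt) (hSC : SC_stmt) (hFL : FL_stmt)
    (hNE : NE_stmt) {n : ℕ} (P : Subgroup (SLZ n)) (hP : Group.IsSolvable P) :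
    ∃ P₁ : Subgroup (SLZ n), P₁ ≤ P ∧ (∀ g ∈ P, ∃ j : ℕ, 0 < j ∧ g ^ j ∈ P₁) ∧
      ∃ (𝔲 : Submodule ℚ (MQ n)) (k : ℕ) (W : ℕ → Submodule ℚ (VQ n)), FS P₁ 𝔲 k W := by
  obtain ⟨P₁, U, hle, hUP, hpow, h3, hiff, hcom⟩ := hFU n P hP
  obtain ⟨k, W, hm, h0, hk, hst, hirr⟩ := hFC n P₁
  have hUnil : ∀ a ∈ U, IsNilpotent (qg a - 1) := fun a ha => (hiff a (hUP ha)).1 ha
  have hconj : ∀ g ∈ P₁, ∀ a ∈ U, g * a * g⁻¹ ∈ U := by
    intro g hg a ha
    have h1 := U.mul_mem (hcom g hg a (hUP ha)) ha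
    rwa [inv_mul_cancel_right] at h1
  have triv := hUT n P₁ U W hm hst hirr hUP hUnil hconj
  obtain ⟨hschur, hss⟩ := hSC n k P₁ W hm h0 hk hst hirr
    (fun g hg h hh i w hw => triv _ (hcom g hg h hh) i w hw)
  obtain ⟨𝔲, h1, h2, h3', h4, h5⟩ := hFL n k U W hm h0 hk triv
  exact ⟨P₁, hle, hpow, 𝔲, k, W, {
    mono := hm, bot := h0, top := hk, stab := hst, down := h1, grp := h2
    lat := fun X hX => by
      obtain ⟨j, hj, a, ha, h⟩ := h3' X hX
      exact ⟨j, hj, a, hUP ha, h⟩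
    uni := fun g hg hn => h4 g ((hiff g hg).2 hn)
    com := fun g hg h hh => h4 _ (hcom g hg h hh)
    conj := fun g hg X hX => h5 g (hconj g hg) X hX
    schur := hschur
    ss := hss
    neat := fun g hg => hNE n g (h3 g hg) }⟩

theorem qg_inv_eq {n : ℕ} (g : SLZ n) : (qg g)⁻¹ = qg g⁻¹ :=
  Matrix.inv_eq_right_inv (qg_mul_inv g)

/-- integral points of the closure -/
theorem Zc_of_ZQ {n : ℕ} {R : Subgroup (SLZ n)} {g : SLZ n} (h : qg g ∈ ZQ (mz R)) : g ∈ Zc R := by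
  intro F hF hR
  obtain ⟨P, hP⟩ := hF
  have key : ∀ x : SLZ n, MvPolynomial.eval (fun a : Fin n × Fin n => qg x a.1 a.2)
      (MvPolynomial.map (Int.castRingHom ℚ) P) = ((F x : ℤ) : ℚ) := by
    intro x
    rw [hP, MvPolynomial.eval_map]
    have h1 := MvPolynomial.eval₂_comp (Int.castRingHom ℚ)
      (fun a : Fin n × Fin n => (x : Matrix (Fin n) (Fin n) ℤ) a.1 a.2) P
    exact h1.symm
  have h2 := h (MvPolynomial.map (Int.castRingHom ℚ) P) (by
    rintro s ⟨x, hx, rfl⟩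
    rw [key, hR x hx, Int.cast_zero])
  rw [key] at h2
  exact_mod_cast h2

theorem Zc_le_Zc {n : ℕ} {N R : Subgroup (SLZ n)} (h : N ≤ Zc R) : Zc N ≤ Zc R := by
  intro g hg F hF hR
  exact hg F hF (fun x hx => h hx F hF hR)

/-- the density of the stabiliser -/
theorem PD (hPT : PT_stmt) (hPU : PU_stmt) (hPV : PV_stmt) {n : ℕ} (hn : 2 ≤ n)
    (H : Subgroup (SLZ (n + 2))) (hH : ZDense H) (hF : RFam H) :
    St (n + 1) ≤ Zc (H ⊓ St (n + 1)) := by
  obtain ⟨x, hx, w, hw⟩ := hPT n H hH hF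
  set R : Subgroup (SLZ (n + 2)) := H ⊓ St (n + 1) with hR
  obtain ⟨hmul, hdi⟩ := tZG (n + 2) R
  set Z : Set (MQ (n + 2)) := {a | ∀ s : SLZ (n + 2), fx s → qg s * a * qg s⁻¹ ∈ ZQ (mz R)} with hZ
  have hZR : ∀ a ∈ Z, a ∈ ZQ (mz R) := by
    intro a ha
    have h1 := ha 1 fx_one
    rwa [inv_one, qg_one, one_mul, mul_one] at h1
  have h1 : ∀ a ∈ Z, ∀ b ∈ Z, a * b ∈ Z := by
    intro a ha b hb s hs
    have h2 := hmul _ (ha s hs) _ (hb s hs)
    have h3 : qg s * a * qg s⁻¹ * (qg s * b * qg s⁻¹) = qg s * (a * b) * qg s⁻¹ := by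
      calc qg s * a * qg s⁻¹ * (qg s * b * qg s⁻¹)
          = qg s * a * (qg s⁻¹ * qg s) * b * qg s⁻¹ := by simp only [mul_assoc]
        _ = qg s * (a * b) * qg s⁻¹ := by rw [qg_inv_mul, mul_one]; simp only [mul_assoc]
    rwa [h3] at h2
  have h2 : ∀ a ∈ Z, a.det = 1 ∧ a⁻¹ ∈ Z ∧ a *ᵥ e0 (n + 1) = e0 (n + 1) := by
    intro a ha
    refine ⟨(hdi a (hZR a ha)).1, ?_, ?_⟩
    · intro s hs
      have h3 := (hdi _ (ha s hs)).2
      rw [Matrix.mul_inv_rev, Matrix.mul_inv_rev, qg_inv_eq, qg_inv_eq, inv_inv, ← mul_assoc] at h3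
      exact h3
    · ext i
      rw [mulVec_e0]
      have h3 := hZR a ha (MvPolynomial.X (i, 0) - MvPolynomial.C (e0 (n + 1) i)) (by
        rintro s ⟨g, hg, rfl⟩
        rw [map_sub, MvPolynomial.eval_X, MvPolynomial.eval_C]
        have h4 : qg g *ᵥ e0 (n + 1) = e0 (n + 1) := hg.2
        have h5 := congrFun h4 i
        rw [mulVec_e0] at h5
        rw [h5, sub_self])
      rw [map_sub, MvPolynomial.eval_X, MvPolynomial.eval_C] at h3
      exact sub_eq_zero.1 h3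
  have h3 : ∀ s : SLZ (n + 2), fx s → ∀ a ∈ Z, qg s * a * qg s⁻¹ ∈ Z := by
    intro s hs a ha t ht
    have h4 := ha (t * s) (fx_mul ht hs)
    rw [_root_.mul_inv_rev, qg_mul, qg_mul] at h4
    have h5 : qg t * qg s * a * (qg s⁻¹ * qg t⁻¹) = qg t * (qg s * a * qg s⁻¹) * qg t⁻¹ := by
      simp only [mul_assoc]
    rwa [h5] at h4
  obtain ⟨z, hz1, hz2, hz3, hz4⟩ := hPU (n + 1) (by omega) Z h1 h2 h3 x hx ⟨w, hw⟩
  let N : Subgroup (SLZ (n + 2)) :=
    { carrier := {g | fx g ∧ qg g ∈ Z}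
      one_mem' := by
        refine ⟨fx_one, ?_⟩
        intro s _
        rw [qg_one, mul_one, qg_mul_inv]
        exact subset_ZQ _ ⟨1, R.one_mem, qg_one.symm⟩
      mul_mem' := by
        rintro a b ⟨ha, ha'⟩ ⟨hb, hb'⟩
        refine ⟨fx_mul ha hb, ?_⟩
        rw [qg_mul]
        exact h1 _ ha' _ hb'
      inv_mem' := by
        rintro a ⟨ha, ha'⟩
        refine ⟨fx_inv ha, ?_⟩
        rw [← qg_inv_eq]
        exact (h2 _ ha').2.1 }
  have hN := hPV (n + 1) (by omega) N (fun g hg => hg.1) (by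
    rintro s hs g ⟨hg, hg'⟩
    refine ⟨fx_mul (fx_mul hs hg) (fx_inv hs), ?_⟩
    rw [qg_mul, qg_mul]
    exact h3 s hs _ hg') z ⟨hz1, hz2⟩ hz3 hz4
  refine hN.trans (Zc_le_Zc ?_)
  rintro g ⟨_, hg⟩
  exact Zc_of_ZQ (hZR _ hg)

theorem fixP_mono {n : ℕ} {P Q : Subgroup (SLZ n)} (h : P ≤ Q) (u : VQ n) : fixP P u ⊆ fixP Q u := by
  rintro x ⟨g, hg, h1, rfl⟩
  exact ⟨g, h hg, h1, rfl⟩

theorem RFam.mono {n : ℕ} {P Q : Subgroup (SLZ n)} (h : P ≤ Q) (hF : RFam P) : RFam Q := by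
  obtain ⟨y, h1, h2, h3⟩ := hF
  exact ⟨y, h1, h2.mono fun u hu => ZQ_mono (fixP_mono h u) hu, h3⟩

/-- the elements which are trivial on the steps in `I` -/
def PI {n : ℕ} {P : Subgroup (SLZ n)} {𝔲 : Submodule ℚ (MQ n)} {k : ℕ}
    {W : ℕ → Submodule ℚ (VQ n)} (h : FS P 𝔲 k W) (I : Finset ℕ) : Subgroup (SLZ n) where
  carrier := {g | g ∈ P ∧ ∀ i ∈ I, ∀ w ∈ W (i + 1), qg g *ᵥ w - w ∈ W i}
  one_mem' := by
    refine ⟨P.one_mem, fun i _ w _ => ?_⟩
    rw [qg_one, one_mulVec, sub_self]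
    exact (W i).zero_mem
  mul_mem' := by
    rintro a b ⟨ha, ha'⟩ ⟨hb, hb'⟩
    refine ⟨P.mul_mem ha hb, fun i hi w hw => ?_⟩
    have h1 : qg (a * b) *ᵥ w - w = qg a *ᵥ (qg b *ᵥ w - w) + (qg a *ᵥ w - w) := by
      rw [qg_mul, mulVec_sub, mulVec_mulVec]
      abel
    rw [h1]
    exact (W i).add_mem (h.stab a ha i _ (hb' i hi w hw)) (ha' i hi w hw)
  inv_mem' := by
    rintro a ⟨ha, ha'⟩
    refine ⟨P.inv_mem ha, fun i hi w hw => ?_⟩
    have h1 : qg a⁻¹ *ᵥ w - w = - (qg a⁻¹ *ᵥ (qg a *ᵥ w - w)) := by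
      rw [mulVec_sub, mulVec_mulVec, qg_inv_mul, one_mulVec]
      abel
    rw [h1]
    exact (W i).neg_mem (h.stab _ (P.inv_mem ha) i _ (ha' i hi w hw))

/-- the alternative -/
theorem FAM {n : ℕ} (hn : 2 ≤ n) (P : Subgroup (SLZ n)) {𝔲 : Submodule ℚ (MQ n)} {k : ℕ}
    {W : ℕ → Submodule ℚ (VQ n)} (h : FS P 𝔲 k W) (hP : PStar P) : Star 𝔲 ∨ RFam P := by
  classical
  by_contra hcon
  push Not at hcon
  obtain ⟨hS, hR⟩ := hcon
  have hu : ∃ u : VQ n, ∀ X ∈ 𝔲, X *ᵥ u = 0 → X = 0 := by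
    by_contra h1
    apply hS
    intro u
    by_contra h2
    apply h1
    refine ⟨u, fun X hX hXu => ?_⟩
    by_contra h3
    exact h2 ⟨X, hX, h3, hXu⟩
  set S : Finset (Finset ℕ) := (Finset.range k).powerset.filter
    (fun I => GStar (PI h I : Set (SLZ n))) with hSdef
  have hne : S.Nonempty := by
    refine ⟨∅, ?_⟩
    rw [hSdef, Finset.mem_filter]
    refine ⟨Finset.empty_mem_powerset _, ?_⟩
    apply Gen.of_forall
    intro u
    obtain ⟨g, hg, hg1, hg2⟩ := hP u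
    refine ⟨g, ⟨hg, fun i hi => absurd hi (Finset.notMem_empty i)⟩, ?_, hg2⟩
    have h1 := hg1 1 one_pos
    rwa [pow_one] at h1
  obtain ⟨I, hIS, hmax⟩ := Finset.exists_max_image S Finset.card hne
  rw [hSdef, Finset.mem_filter, Finset.mem_powerset] at hIS
  obtain ⟨hIk, hIG⟩ := hIS
  have hle : PI h I ≤ P := fun g hg => hg.1
  have hFS : FS (PI h I) 𝔲 k W := by
    apply h.sub hle
    intro g hg hgn
    refine ⟨hg, fun i _ w hw => ?_⟩
    obtain ⟨X, hX, hgX⟩ := h.uni g hg hgn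
    have hX1 : X ∈ fil W 1 := (mem_fil_one h.bot).2 (h.down X hX)
    obtain ⟨K, hK⟩ := fil_one_nil h.bot h.top hX1
    rw [hgX, IsNilpotent.exp_eq_sum hK]
    have h1 : ∀ m : ℕ, (∑ j ∈ Finset.range m, ((j.factorial : ℚ)⁻¹) • X ^ j) *ᵥ w
        - (if m = 0 then 0 else w) ∈ W i := by
      intro m
      induction m with
      | zero =>
        rw [Finset.range_zero, Finset.sum_empty, zero_mulVec, if_pos rfl, sub_self]
        exact (W i).zero_mem
      | succ m ih =>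
        rw [Finset.sum_range_succ, add_mulVec, if_neg (Nat.succ_ne_zero m)]
        rcases Nat.eq_zero_or_pos m with rfl | hm
        · rw [Finset.range_zero, Finset.sum_empty, zero_mulVec, zero_add, Nat.factorial_zero,
            Nat.cast_one, inv_one, one_smul, pow_zero, one_mulVec, sub_self]
          exact (W i).zero_mem
        · rw [if_neg hm.ne'] at ih
          have h2 : (((m.factorial : ℚ)⁻¹) • X ^ m) *ᵥ w ∈ W i := by
            rw [smul_mulVec]
            apply (W i).smul_mem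
            obtain ⟨m', rfl⟩ := Nat.exists_eq_succ_of_ne_zero hm.ne'
            rw [Nat.succ_eq_add_one, pow_succ, ← mulVec_mulVec]
            have h3 : ∀ (r : ℕ) (v : VQ n), v ∈ W i → (X ^ r) *ᵥ v ∈ W i := by
              intro r
              induction r with
              | zero =>
                intro v hv
                rw [pow_zero, one_mulVec]
                exact hv
              | succ r ihr =>
                intro v hv
                rw [pow_succ, ← mulVec_mulVec]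
                exact ihr _ (h.mono (Nat.sub_le i 1) (hX1 i v hv))
            exact h3 m' _ (h.down X hX i w hw)
          have h4 := (W i).add_mem ih h2
          have h5 : (∑ j ∈ Finset.range m, ((j.factorial : ℚ)⁻¹) • X ^ j) *ᵥ w - w
              + (((m.factorial : ℚ)⁻¹) • X ^ m) *ᵥ w
              = (∑ j ∈ Finset.range m, ((j.factorial : ℚ)⁻¹) • X ^ j) *ᵥ w
              + (((m.factorial : ℚ)⁻¹) • X ^ m) *ᵥ w - w := by abel
          rwa [h5] at h4
    rcases Nat.eq_zero_or_pos K with rfl | hK0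
    · have h2 : w = 0 := by
        rw [pow_zero] at hK
        rw [← one_mulVec w, hK, zero_mulVec]
      rw [h2, mulVec_zero, sub_zero]
      exact (W i).zero_mem
    · have h2 := h1 K
      rwa [if_neg hK0.ne'] at h2
  have hCL := tCL n (PI h I) 𝔲 k W hFS hIG (by
    rintro i ⟨g, hg, w, hw, hgw⟩ hG
    have hik : i < k := by
      by_contra hik
      push Not at hik
      apply hgw
      have h1 : W i = ⊤ := by
        rw [eq_top_iff, ← h.top]
        exact h.mono hik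
      rw [h1]
      trivial
    have hiI : i ∉ I := fun hiI => hgw (hg.2 i hiI w hw)
    have hins : insert i I ∈ S := by
      rw [hSdef, Finset.mem_filter, Finset.mem_powerset]
      refine ⟨Finset.insert_subset (Finset.mem_range.2 hik) hIk, ?_⟩
      apply hG.mono
      rintro u ⟨g', hg', h1, h2⟩
      refine ⟨g', ⟨hg'.1.1, ?_⟩, h1, h2⟩
      intro i' hi' w' hw'
      rcases Finset.mem_insert.1 hi' with rfl | hi'
      · exact hg'.2 w' hw'
      · exact hg'.1.2 i' hi' w' hw'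
    have h1 := hmax _ hins
    rw [Finset.card_insert_of_notMem hiI] at h1
    omega)
  apply hR
  apply RFam.mono hle
  by_cases hc : ∃ g ∈ PI h I, ¬ IsNilpotent (qg g - 1) ∧ ∃ s N : MQ n, JD (qg g) s N ∧ N ∈ 𝔲
  · exact tNX n hn (PI h I) 𝔲 k W hFS hu hCL hc
  · refine tMX n (PI h I) 𝔲 k W hFS hu hCL hIG ?_
    intro g hg s N hJ hN
    by_contra h1
    exact hc ⟨g, hg, h1, s, N, hJ, hN⟩

theorem PStar.pow {n : ℕ} {P P₁ : Subgroup (SLZ n)} (h : ∀ g ∈ P, ∃ j : ℕ, 0 < j ∧ g ^ j ∈ P₁)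
    (hP : PStar P) : PStar P₁ := by
  intro u
  obtain ⟨g, hg, h1, h2⟩ := hP u
  obtain ⟨j, hj, hj'⟩ := h g hg
  refine ⟨g ^ j, hj', ?_, ?_⟩
  · intro i hi
    rw [← pow_mul]
    exact h1 _ (Nat.mul_pos hj hi)
  · rw [qg_pow]
    have h3 : ∀ m : ℕ, (qg g ^ m) *ᵥ u = u := by
      intro m
      induction m with
      | zero => rw [pow_zero, one_mulVec]
      | succ m ih => rw [pow_succ, ← mulVec_mulVec, h2, ih]
    exact h3 j

theorem solv_le {G : Type} [Group G] {P Q : Subgroup G} (h : P ≤ Q) (hQ : Group.IsSolvable Q) :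
    Group.IsSolvable P := by
  haveI := hQ
  exact Group.isSolvable_of_isSolvable_injective (Subgroup.inclusion_injective h)

theorem RedV.mono {n : ℕ} {P Q : Subgroup (SLZ n)} (h : P ≤ Q) {v : VQ n} (hv : RedV P v) :
    RedV Q v := by
  intro u
  obtain ⟨g, hg, h1⟩ := hv u
  exact ⟨g, h hg, h1⟩

end Pool.Agent.BS
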