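import Pool.Agent.helper73.BS.Asm2

/-!
# Project bs: Theorem B from the rows
-/

set_option autoImplicit false

namespace Pool.Agent.BS

open Matrix Module Pool.Agent.UG Pool.Agent.H48SL Pool.Agent.SHL

/-- the conclusion of `FSE` -/
def FSE_prop : Prop := ∀ (n : ℕ) (P : Subgroup (SLZ n)), Group.IsSolvable P →
  ∃ P₁ : Subgroup (SLZ n), P₁ ≤ P ∧ (∀ g ∈ P, ∃ j : ℕ, 0 < j ∧ g ^ j ∈ P₁) ∧
    ∃ (𝔲 : Submodule ℚ (MQ n)) (k : ℕ) (W : ℕ → Submodule ℚ (VQ n)), FS P₁ 𝔲 k W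

/-- one step of the induction -/
theorem STEP (hFSE : FSE_prop) (hST : ST_stmt) (hTR : TR_stmt) (hCJ : CJ_stmt) (hQB : QB_stmt)
    {n : ℕ} (hn : 2 ≤ n) (H P : Subgroup (SLZ (n + 1))) (hH : ZDense H) (hPH : P ≤ H)
    (hPs : Group.IsSolvable P) (hP : PStar P) : H.FiniteIndex ∨
    ∃ (H' P' P₂ : Subgroup (SLZ (n + 1))) (𝔲 : Submodule ℚ (MQ (n + 1))) (k : ℕ)
      (W : ℕ → Submodule ℚ (VQ (n + 1))), (H'.FiniteIndex → H.FiniteIndex) ∧ ZDense H' ∧ P' ≤ H' ∧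
      P₂ ≤ P' ∧ FS P₂ 𝔲 k W ∧ PStar P₂ ∧ Group.IsSolvable (Hb P') ∧ PStar (Hb P') := by
  obtain ⟨P₁, h1, h2, 𝔲, k, W, hFS⟩ := hFSE (n + 1) P hPs
  have hP1 : PStar P₁ := hP.pow h2
  obtain ⟨v, hv, hRv⟩ := hST (n + 1) (by omega) P₁ 𝔲 k W hFS hP1
  obtain ⟨H', P', hfi, hD, hle, hs, hst, hred⟩ := hCJ n (by omega) H P₁ hH (h1.trans hPH)
    (solv_le h1 hPs) hP1 v hv hRv
  obtain ⟨P₂, h3, h4, 𝔲', k', W', hFS'⟩ := hFSE (n + 1) P' hs
  have hP2 : PStar P₂ := hst.pow h4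
  by_cases hτ : ∀ τ : Fin (n + 1) → ℤ, τ 0 = 0 → tv (Pi.single 0 1) τ ∈ P' →
      tv (Pi.single 0 1) τ = 1
  · right
    obtain ⟨h5, h6⟩ := hQB n P' hs hred hτ
    exact ⟨H', P', P₂, 𝔲', k', W', hfi, hD, hle, h3, hFS', hP2, h5, h6⟩
  · left
    push Not at hτ
    obtain ⟨τ, hτ0, hτP, hτ1⟩ := hτ
    apply hfi
    have h5 : τ ⬝ᵥ (Pi.single 0 1 : Fin (n + 1) → ℤ) = 0 := by
      rw [dotProduct_single, mul_one, hτ0]
    obtain ⟨j, hj, hj'⟩ := h4 _ hτP
    have h6 : (tv (Pi.single 0 1 : Fin (n + 1) → ℤ) τ) ^ j = tv (Pi.single 0 1) ((j : ℤ) • τ) := by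
      rw [tv_zsmul_right h5, zpow_natCast]
    have h7 : ((j : ℤ) • τ) ⬝ᵥ (Pi.single 0 1 : Fin (n + 1) → ℤ) = 0 := by
      rw [smul_dotProduct, h5, smul_zero]
    refine hTR (n + 1) (by omega) H' P₂ hD (h3.trans hle) 𝔲' k' W' hFS' hP2 (Pi.single 0 1)
      ((j : ℤ) • τ) h7 ?_ (by rw [← h6]; exact hj')
    intro h8
    apply hτ1
    have h9 : τ = 0 := by
      have h10 := congrArg (fun g : SLZ (n + 1) => (g : Matrix (Fin (n + 1)) (Fin (n + 1)) ℤ)) h8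
      simp only [tv_coe h7, Matrix.SpecialLinearGroup.coe_one] at h10
      have h11 : vecMulVec (Pi.single 0 1 : Fin (n + 1) → ℤ) ((j : ℤ) • τ) = 0 := by
        have := h10
        rwa [add_eq_left] at this
      ext i
      have h12 := congrFun (congrFun h11 0) i
      rw [vecMulVec_apply, Pi.single_eq_same, one_mul, Pi.smul_apply, smul_eq_mul] at h12
      rcases mul_eq_zero.1 h12 with h13 | h13
      · omega
      · exact h13
    apply SL_ext
    rw [tv_coe h5, h9]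
    ext i j
    simp

/-- the Lie algebra is associatively nilpotent -/
theorem FS.anil {n : ℕ} {P : Subgroup (SLZ n)} {𝔲 : Submodule ℚ (MQ n)} {k : ℕ}
    {W : ℕ → Submodule ℚ (VQ n)} (h : FS P 𝔲 k W) : ANil 𝔲 := by
  refine ⟨k, fun l hl hk => ?_⟩
  have h1 : ∀ l : List (MQ n), (∀ X ∈ l, X ∈ 𝔲) → l.prod ∈ fil W l.length := by
    intro l
    induction l with
    | nil =>
      intro _ a w hw
      rw [List.prod_nil, one_mulVec]
      exact hw
    | cons X l ih =>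
      intro hl
      rw [List.prod_cons, List.length_cons, Nat.add_comm]
      exact fil_mul ((mem_fil_one h.bot).2 (h.down X (hl X (List.mem_cons_self))))
        (ih fun Y hY => hl Y (List.mem_cons_of_mem X hY))
  have h2 : l.prod ∈ fil W k := by
    have h3 : ∀ m, k ≤ m → fil W m ≤ fil W k := by
      intro m hm
      induction m, hm using Nat.le_induction with
      | base => exact le_refl _
      | succ m _ ih => exact (fil_anti h.mono m).trans ih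
    exact h3 _ hk (h1 l hl)
  rw [fil_bot h.bot h.top] at h2
  exact (Submodule.mem_bot ℚ).1 h2

/-- **Theorem B** -/
theorem THB (hFSE : FSE_prop) (hST : ST_stmt) (hTR : TR_stmt) (hCJ : CJ_stmt) (hQB : QB_stmt)
    (hN2P : N2P_stmt) (hPT : PT_stmt) (hPU : PU_stmt) (hPV : PV_stmt) (hHZ : HZ_stmt)
    (hC1 : C1_stmt) : ∀ n : ℕ, 3 ≤ n → ∀ H P : Subgroup (SLZ n), ZDense H → P ≤ H →
    Group.IsSolvable P → PStar P → H.FiniteIndex := by
  intro n hn
  induction n, hn using Nat.le_induction with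
  | base =>
    intro H P hH hPH hPs hP
    rcases STEP hFSE hST hTR hCJ hQB (le_refl 2) H P hH hPH hPs hP with h | h
    · exact h
    · obtain ⟨H', P', P₂, 𝔲, k, W, -, -, -, -, -, -, h1, h2⟩ := h
      obtain ⟨P₃, _, h4, 𝔲', k', W', hFS⟩ := hFSE 2 (Hb P') h1
      exact absurd (h2.pow h4) (hN2P P₃ 𝔲' k' W' hFS)
  | succ m hm ih =>
    intro H P hH hPH hPs hP
    rcases STEP hFSE hST hTR hCJ hQB (by omega) H P hH hPH hPs hP with h | h
    · exact h
    · obtain ⟨H', P', P₂, 𝔲, k, W, hfi, hD, hle, hle2, hFS, hP2, h1, h2⟩ := h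
      apply hfi
      rcases FAM (by omega) P₂ hFS hP2 with hS | hR
      · refine UG.tG0 (m + 1) (by omega) H' hD 𝔲 hFS.anil ?_ hS
        intro X hX
        obtain ⟨j, hj, g, hg, hgX⟩ := hFS.lat X hX
        exact ⟨j, hj, g, hle (hle2 hg), hgX⟩
      · obtain ⟨l, rfl⟩ : ∃ l, m = l + 1 := ⟨m - 1, by omega⟩
        have hSt := PD hPT hPU hPV (by omega) H' hD (hR.mono (hle2.trans hle))
        have hDb := hHZ (l + 1) H' hSt
        have hle' : Hb P' ≤ Hb H' := by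
          intro s hs
          rw [mem_Hb] at hs ⊢
          obtain ⟨g, hg, hg1⟩ := hs
          exact ⟨g, hle hg, hg1⟩
        exact hC1 (l + 1) (by omega) H' hD hSt (ih (Hb H') (Hb P') hDb hle' h1 h2)

/-- solvable subgroups of Hirsch length at least `n` -/
theorem SVB (hHV : HV_stmt) (hTHB : ∀ n : ℕ, 3 ≤ n → ∀ H P : Subgroup (SLZ n), ZDense H → P ≤ H →
    Group.IsSolvable P → PStar P → H.FiniteIndex) : ∀ n : ℕ, 3 ≤ n → ∀ H P : Subgroup (SLZ n),
    ZDense H → P ≤ H → Group.IsSolvable P → Hi n P → H.FiniteIndex := by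
  intro n hn H P hH hPH hPs hHi
  exact hTHB n hn H P hH hPH hPs (hHV n (by omega) P hPs hHi)

end Pool.Agent.BS
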