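import Pool.Agent.helper73.BS.Asm3
import Pool.Agent.helper24.BS.PT
import Pool.Agent.helper2.BS.PU
import Pool.Agent.helper76.BS.PV
import Pool.Agent.helper77.BS.HZ
import Pool.Agent.helper45.BS.C1
import Pool.Agent.helper31.BS.ST
import Pool.Agent.helper64.BS.TR
import Pool.Agent.helper50.BS.N2P
import Pool.Agent.helper89.BS.CJ
import Pool.Agent.helper89.BS.QB
import Pool.Agent.helper75.BS.FU
import Pool.Agent.helper71.BS.FC
import Pool.Agent.helper61.BS.UT
import Pool.Agent.helper61.BS.SC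
import Pool.Agent.helper6.BS.FL
import Pool.Agent.helper11.BS.NE
import Pool.Agent.helper46.BS.HP
import Pool.Agent.helper83.BS.DR
import Pool.Agent.helper75.BS.HL
import Pool.Agent.helper85.BS.HV
import Pool.Agent.helper21.UG.TRP

/-!
# Project bs: Theorem B and its corollaries
-/

set_option autoImplicit false

namespace Pool.Agent.BS

open Matrix Module Pool.Agent.UG Pool.Agent.H48SL Pool.Agent.SHL

theorem tFSE : FSE_prop := fun _ P hP =>
  FSE (FU SHL.sMAL (PR.Z_UNIP PR.N_UNI)) FC (UT UG.tKOL) (SC tJE tZG) (FL UG.tMAL uLG uEXJ tEI) NE P hP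

theorem tTHB : ∀ n : ℕ, 3 ≤ n → ∀ H P : Subgroup (SLZ n), ZDense H → P ≤ H →
    Group.IsSolvable P → PStar P → H.FiniteIndex :=
  THB tFSE ST (TR uEXJ) CJ QB (N2P uEXJ) (PT UG.PRM) (PU (UG.EXI uEXJ) uLG uEXJ) (PV UG.NSG) HZ
    (C1 UG.H1 UG.EFI UG.TRV)

theorem tDR : DR_stmt := DR SHL.HA SHL.HB SHL.HD SHL.tTOR HP tLC

theorem tHL : HL_stmt := HL SHL.HA SHL.HB SHL.tTOR SHL.tSTR tDR

theorem tHV : HV_stmt := HV SHL.HA tHL

theorem tSVB : ∀ n : ℕ, 3 ≤ n → ∀ H P : Subgroup (SLZ n),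
    ZDense H → P ≤ H → Group.IsSolvable P → Hi n P → H.FiniteIndex := SVB tHV tTHB

end Pool.Agent.BS
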