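import Pool.Agent.helper73.NH.Spec

/-!
# Project bs (MP_a2a22c_al): solvable subgroups of Hirsch length at least `n`. Definitions and API.
-/

set_option autoImplicit false

namespace Pool.Agent.BS

open Matrix Module Pool.Agent.UG Pool.Agent.H48SL Pool.Agent.SHL

/-- rational vectors -/
abbrev VQ (n : ℕ) : Type := Fin n → ℚ

/-- the algebraic closure of the rationals -/
abbrev KB : Type := AlgebraicClosure ℚ

/-- the Zariski closure of a set of rational matrices -/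
def ZQ {n : ℕ} (S : Set (MQ n)) : Set (MQ n) :=
  {x | ∀ F : MvPolynomial (Fin n × Fin n) ℚ,
    (∀ s ∈ S, MvPolynomial.eval (fun a : Fin n × Fin n => s a.1 a.2) F = 0) →
    MvPolynomial.eval (fun a : Fin n × Fin n => x a.1 a.2) F = 0}

theorem subset_ZQ {n : ℕ} (S : Set (MQ n)) : S ⊆ ZQ S := fun x hx _ h => h x hx

theorem ZQ_mono {n : ℕ} {S T : Set (MQ n)} (h : S ⊆ T) : ZQ S ⊆ ZQ T :=
  fun _ hx F hF => hx F fun s hs => hF s (h hs)

theorem ZQ_min {n : ℕ} {S T : Set (MQ n)} (h : S ⊆ ZQ T) : ZQ S ⊆ ZQ T :=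
  fun _ hx F hF => hx F fun s hs => h hs F hF

/-- the matrices of the elements of `P` -/
def mz {n : ℕ} (P : Subgroup (SLZ n)) : Set (MQ n) := {x | ∃ g ∈ P, x = qg g}

/-- the matrices of the elements of `P` which fix `u` -/
def fixP {n : ℕ} (P : Subgroup (SLZ n)) (u : VQ n) : Set (MQ n) :=
  {x | ∃ g ∈ P, qg g *ᵥ u = u ∧ x = qg g}

/-- every vector is fixed by an element of `P` of infinite order -/
def PStar {n : ℕ} (P : Subgroup (SLZ n)) : Prop :=
  ∀ u : VQ n, ∃ g ∈ P, (∀ j : ℕ, 0 < j → g ^ j ≠ 1) ∧ qg g *ᵥ u = u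

/-! ### Generic vectors -/

/-- `Q u` holds for all `u` outside a hypersurface -/
def Gen {n : ℕ} (Q : VQ n → Prop) : Prop :=
  ∃ f : MvPolynomial (Fin n) ℚ, f ≠ 0 ∧ ∀ u : VQ n, MvPolynomial.eval u f ≠ 0 → Q u

theorem Gen.mono {n : ℕ} {Q Q' : VQ n → Prop} (h : Gen Q) (h' : ∀ u, Q u → Q' u) : Gen Q' := by
  obtain ⟨f, hf, hq⟩ := h
  exact ⟨f, hf, fun u hu => h' u (hq u hu)⟩

theorem Gen.and {n : ℕ} {Q Q' : VQ n → Prop} (h : Gen Q) (h' : Gen Q') :
    Gen (fun u => Q u ∧ Q' u) := by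
  obtain ⟨f, hf, hq⟩ := h
  obtain ⟨g, hg, hq'⟩ := h'
  refine ⟨f * g, mul_ne_zero hf hg, fun u hu => ?_⟩
  rw [map_mul] at hu
  exact ⟨hq u (left_ne_zero_of_mul hu), hq' u (right_ne_zero_of_mul hu)⟩

theorem Gen.of_forall {n : ℕ} {Q : VQ n → Prop} (h : ∀ u, Q u) : Gen Q :=
  ⟨1, one_ne_zero, fun u _ => h u⟩

theorem Gen.of_ne {n : ℕ} {f : MvPolynomial (Fin n) ℚ} (hf : f ≠ 0) :
    Gen (fun u => MvPolynomial.eval u f ≠ 0) := ⟨f, hf, fun _ h => h⟩

theorem exists_eval_ne {n : ℕ} {f : MvPolynomial (Fin n) ℚ} (hf : f ≠ 0) :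
    ∃ u : VQ n, MvPolynomial.eval u f ≠ 0 := by
  by_contra h
  refine hf (MvPolynomial.funext fun u => ?_)
  rw [map_zero]
  by_contra h1
  exact h ⟨u, h1⟩

theorem Gen.exists {n : ℕ} {Q : VQ n → Prop} (h : Gen Q) : ∃ u, Q u := by
  obtain ⟨f, hf, hq⟩ := h
  obtain ⟨u, hu⟩ := exists_eval_ne hf
  exact ⟨u, hq u hu⟩

/-- finitely many conditions -/
theorem Gen.all {n : ℕ} {ι : Type} (s : Finset ι) (Q : ι → VQ n → Prop)
    (h : ∀ i ∈ s, Gen (Q i)) : Gen (fun u => ∀ i ∈ s, Q i u) := by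
  classical
  induction s using Finset.induction_on with
  | empty => exact Gen.of_forall fun u i hi => absurd hi (Finset.notMem_empty i)
  | insert a s ha ih =>
    have h1 := (h a (Finset.mem_insert_self a s)).and
      (ih fun i hi => h i (Finset.mem_insert_of_mem hi))
    refine h1.mono fun u hu i hi => ?_
    rcases Finset.mem_insert.1 hi with rfl | hi
    · exact hu.1
    · exact hu.2 i hi

/-! ### Rational functions -/

/-- `g` is generically equal to a matrix of rational functions -/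
def RF {n m : ℕ} (g : VQ n → MQ m) : Prop :=
  ∃ d : MvPolynomial (Fin n) ℚ, d ≠ 0 ∧ ∃ G : Fin m → Fin m → MvPolynomial (Fin n) ℚ,
    ∀ u : VQ n, MvPolynomial.eval u d ≠ 0 → ∀ i j, MvPolynomial.eval u (G i j)
      = MvPolynomial.eval u d * g u i j

/-- `w` is generically equal to a vector of rational functions -/
def RFv {n m : ℕ} (w : VQ n → VQ m) : Prop :=
  ∃ d : MvPolynomial (Fin n) ℚ, d ≠ 0 ∧ ∃ G : Fin m → MvPolynomial (Fin n) ℚ,
    ∀ u : VQ n, MvPolynomial.eval u d ≠ 0 → ∀ i, MvPolynomial.eval u (G i)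
      = MvPolynomial.eval u d * w u i

theorem RF.const {n m : ℕ} (M : MQ m) : RF (fun _ : VQ n => M) :=
  ⟨1, one_ne_zero, fun i j => MvPolynomial.C (M i j), fun u _ i j => by
    rw [MvPolynomial.eval_C, map_one, one_mul]⟩

theorem RFv.id {n : ℕ} : RFv (fun u : VQ n => u) :=
  ⟨1, one_ne_zero, fun i => MvPolynomial.X i, fun u _ i => by
    rw [MvPolynomial.eval_X, map_one, one_mul]⟩

theorem RF.add {n m : ℕ} {g h : VQ n → MQ m} (hg : RF g) (hh : RF h) :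
    RF (fun u => g u + h u) := by
  obtain ⟨d, hd, G, hG⟩ := hg
  obtain ⟨e, he, H, hH⟩ := hh
  refine ⟨d * e, mul_ne_zero hd he, fun i j => e * G i j + d * H i j, fun u hu i j => ?_⟩
  rw [map_mul] at hu
  rw [map_add, map_mul, map_mul, map_mul, hG u (left_ne_zero_of_mul hu) i j,
    hH u (right_ne_zero_of_mul hu) i j]
  show _ = _ * (g u i j + h u i j)
  ring

theorem RF.mul {n m : ℕ} {g h : VQ n → MQ m} (hg : RF g) (hh : RF h) :
    RF (fun u => g u * h u) := by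
  obtain ⟨d, hd, G, hG⟩ := hg
  obtain ⟨e, he, H, hH⟩ := hh
  refine ⟨d * e, mul_ne_zero hd he, fun i j => ∑ k, G i k * H k j, fun u hu i j => ?_⟩
  rw [map_mul] at hu
  rw [map_sum, map_mul]
  show _ = _ * ((g u * h u) i j)
  rw [Matrix.mul_apply, Finset.mul_sum]
  apply Finset.sum_congr rfl
  intro k _
  rw [map_mul, hG u (left_ne_zero_of_mul hu) i k, hH u (right_ne_zero_of_mul hu) k j]
  ring

theorem RF.smul {n m : ℕ} {g : VQ n → MQ m} (hg : RF g) (c : ℚ) : RF (fun u => c • g u) := by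
  obtain ⟨d, hd, G, hG⟩ := hg
  refine ⟨d, hd, fun i j => MvPolynomial.C c * G i j, fun u hu i j => ?_⟩
  rw [map_mul, MvPolynomial.eval_C, hG u hu i j]
  show _ = _ * (c * g u i j)
  ring

theorem RF.pow {n m : ℕ} {g : VQ n → MQ m} (hg : RF g) (k : ℕ) : RF (fun u => g u ^ k) := by
  induction k with
  | zero => simp only [pow_zero]; exact RF.const 1
  | succ k ih => simp only [pow_succ]; exact ih.mul hg

theorem RF.sum {n m : ℕ} {κ : Type} (s : Finset κ) (g : κ → VQ n → MQ m)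
    (hg : ∀ k ∈ s, RF (g k)) : RF (fun u => ∑ k ∈ s, g k u) := by
  classical
  induction s using Finset.induction_on with
  | empty => simp only [Finset.sum_empty]; exact RF.const 0
  | insert a s ha ih =>
    simp only [Finset.sum_insert ha]
    exact (hg a (Finset.mem_insert_self a s)).add
      (ih fun k hk => hg k (Finset.mem_insert_of_mem hk))

theorem RF.mulVec {n m : ℕ} {g : VQ n → MQ m} {w : VQ n → VQ m} (hg : RF g) (hw : RFv w) :
    RFv (fun u => g u *ᵥ w u) := by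
  obtain ⟨d, hd, G, hG⟩ := hg
  obtain ⟨e, he, H, hH⟩ := hw
  refine ⟨d * e, mul_ne_zero hd he, fun i => ∑ k, G i k * H k, fun u hu i => ?_⟩
  rw [map_mul] at hu
  rw [map_sum, map_mul]
  show _ = _ * ∑ k, g u i k * w u k
  rw [Finset.mul_sum]
  apply Finset.sum_congr rfl
  intro k _
  rw [map_mul, hG u (left_ne_zero_of_mul hu) i k, hH u (right_ne_zero_of_mul hu) k]
  ring

theorem RFv.sub {n m : ℕ} {v w : VQ n → VQ m} (hv : RFv v) (hw : RFv w) :
    RFv (fun u => v u - w u) := by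
  obtain ⟨d, hd, G, hG⟩ := hv
  obtain ⟨e, he, H, hH⟩ := hw
  refine ⟨d * e, mul_ne_zero hd he, fun i => e * G i - d * H i, fun u hu i => ?_⟩
  rw [map_mul] at hu
  rw [map_sub, map_mul, map_mul, map_mul, hG u (left_ne_zero_of_mul hu) i,
    hH u (right_ne_zero_of_mul hu) i]
  show _ = _ * (v u i - w u i)
  ring

/-- a function which is generically equal to a rational function -/
theorem RF.congr {n m : ℕ} {g h : VQ n → MQ m} (hg : RF g) (hh : Gen (fun u => h u = g u)) :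
    RF h := by
  obtain ⟨d, hd, G, hG⟩ := hg
  obtain ⟨f, hf, hfg⟩ := hh
  refine ⟨d * f, mul_ne_zero hd hf, fun i j => f * G i j, fun u hu i j => ?_⟩
  rw [map_mul] at hu
  rw [map_mul, map_mul, hG u (left_ne_zero_of_mul hu) i j, hfg u (right_ne_zero_of_mul hu)]
  ring

/-! ### Jordan decomposition -/

/-- `y = s * exp N`, `s` semisimple, `N` nilpotent, `s`, `N` commute -/
def JD {n : ℕ} (y s N : MQ n) : Prop :=
  IsNilpotent N ∧ Commute s N ∧ Module.End.IsSemisimple (Matrix.toLin' s) ∧ y = s * IsNilpotent.exp N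

/-- the eigenvalues of `y` generate a torsion-free group -/
def Neat {n : ℕ} (y : MQ n) : Prop :=
  ∃ Λ : Subgroup KBˣ, (∀ z ∈ Λ, ∀ m : ℕ, 0 < m → z ^ m = 1 → z = 1) ∧
    ∀ (l : KB) (w : Fin n → KB), w ≠ 0 → y.map (algebraMap ℚ KB) *ᵥ w = l • w →
      ∃ z ∈ Λ, (z : KB) = l

/-! ### Solvable groups with a flag -/

/-- The solvable group `P` preserves the flag `W`; `𝔲` is the Lie algebra of its unipotent elements. -/
structure FS {n : ℕ} (P : Subgroup (SLZ n)) (𝔲 : Submodule ℚ (MQ n)) (k : ℕ)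
    (W : ℕ → Submodule ℚ (VQ n)) : Prop where
  mono : Monotone W
  bot : W 0 = ⊥
  top : W k = ⊤
  stab : ∀ g ∈ P, ∀ i, ∀ w ∈ W i, qg g *ᵥ w ∈ W i
  down : ∀ X ∈ 𝔲, ∀ i, ∀ w ∈ W (i + 1), X *ᵥ w ∈ W i
  grp : ∀ X ∈ 𝔲, ∀ Y ∈ 𝔲, ∃ Z ∈ 𝔲, IsNilpotent.exp X * IsNilpotent.exp Y = IsNilpotent.exp Z
  lat : ∀ X ∈ 𝔲, ∃ j : ℕ, 1 ≤ j ∧ ∃ g ∈ P, qg g = IsNilpotent.exp ((j : ℚ) • X)
  uni : ∀ g ∈ P, IsNilpotent (qg g - 1) → ∃ X ∈ 𝔲, qg g = IsNilpotent.exp X
  com : ∀ g ∈ P, ∀ h ∈ P, ∃ X ∈ 𝔲, qg (g * h * g⁻¹ * h⁻¹) = IsNilpotent.exp X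
  conj : ∀ g ∈ P, ∀ X ∈ 𝔲, qg g * X * qg g⁻¹ ∈ 𝔲
  schur : ∀ g ∈ P, ∀ i, (∀ w ∈ W (i + 1), qg g *ᵥ w - w ∈ W i) ∨
    (∀ w ∈ W (i + 1), qg g *ᵥ w - w ∈ W i → w ∈ W i)
  ss : ∀ y ∈ ZQ (mz P), ∀ s N, JD y s N → ∀ i, ∀ w ∈ W (i + 1), N *ᵥ w ∈ W i
  neat : ∀ g ∈ P, Neat (qg g)

/-- `FS` passes to subgroups which contain the unipotent elements -/
theorem FS.sub {n : ℕ} {P P' : Subgroup (SLZ n)} {𝔲 : Submodule ℚ (MQ n)} {k : ℕ}
    {W : ℕ → Submodule ℚ (VQ n)} (h : FS P 𝔲 k W) (hle : P' ≤ P)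
    (hu : ∀ g ∈ P, IsNilpotent (qg g - 1) → g ∈ P') : FS P' 𝔲 k W where
  mono := h.mono
  bot := h.bot
  top := h.top
  stab := fun g hg => h.stab g (hle hg)
  down := h.down
  grp := h.grp
  lat := by
    intro X hX
    obtain ⟨j, hj, g, hg, hgX⟩ := h.lat X hX
    refine ⟨j, hj, g, hu g hg ?_, hgX⟩
    have h1 : ∀ (Y : MQ n), Y ∈ 𝔲 → ∀ i, ∀ a, ∀ w ∈ W (a + i), (Y ^ i) *ᵥ w ∈ W a := by
      intro Y hY i
      induction i with
      | zero => intro a w hw; simpa using hw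
      | succ i ih =>
        intro a w hw
        rw [pow_succ, ← mulVec_mulVec]
        exact ih a _ (h.down Y hY (a + i) w hw)
    have h2 : IsNilpotent ((j : ℚ) • X) := by
      refine ⟨k, ?_⟩
      apply Matrix.toLin'.injective
      apply LinearMap.ext
      intro w
      rw [Matrix.toLin'_apply, map_zero, LinearMap.zero_apply]
      have h3 := h1 ((j : ℚ) • X) (𝔲.smul_mem _ hX) k 0 w (by rw [zero_add, h.top]; trivial)
      rw [h.bot] at h3
      exact (Submodule.mem_bot ℚ).1 h3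
    rw [hgX]
    obtain ⟨m, hm⟩ := h2
    set Y : MQ n := (j : ℚ) • X with hY
    have h4 : IsNilpotent.exp Y = ∑ i ∈ Finset.range m, ((i.factorial : ℚ)⁻¹) • Y ^ i :=
      IsNilpotent.exp_eq_sum hm
    have h5 : ∃ U : MQ n, Commute Y U ∧ IsNilpotent.exp Y - 1 = Y * U := by
      rcases Nat.eq_zero_or_pos m with rfl | hm0
      · rw [pow_zero] at hm
        refine ⟨0, Commute.zero_right Y, ?_⟩
        have h6 : ∀ Z : MQ n, Z = 0 := fun Z => by rw [← one_mul Z, hm, zero_mul]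
        rw [h6 (IsNilpotent.exp Y - 1), mul_zero]
      · obtain ⟨m', rfl⟩ := Nat.exists_eq_succ_of_ne_zero hm0.ne'
        refine ⟨∑ i ∈ Finset.range m', (((i + 1).factorial : ℚ)⁻¹) • Y ^ i, ?_, ?_⟩
        · exact Commute.sum_right _ _ _ fun i _ => ((Commute.refl Y).pow_right i).smul_right _
        · rw [h4, Finset.sum_range_succ', Finset.mul_sum]
          simp only [Nat.factorial_zero, Nat.cast_one, inv_one, pow_zero, one_smul,
            add_sub_cancel_right]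
          apply Finset.sum_congr rfl
          intro i _
          rw [mul_smul_comm, pow_succ']
    obtain ⟨U, hU, h7⟩ := h5
    rw [h7]
    exact hU.isNilpotent_mul_right ⟨m, hm⟩
  uni := fun g hg => h.uni g (hle hg)
  com := fun g hg g' hg' => h.com g (hle hg) g' (hle hg')
  conj := fun g hg => h.conj g (hle hg)
  schur := fun g hg => h.schur g (hle hg)
  ss := fun y hy => h.ss y (ZQ_mono (fun x hx => by
    obtain ⟨g, hg, rfl⟩ := hx
    exact ⟨g, hle hg, rfl⟩) hy)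
  neat := fun g hg => h.neat g (hle hg)

/-- `X` is strictly decreasing on the flag and `exp (t X)` is in the closure of `P` for all `t` -/
def Rad {n : ℕ} (P : Subgroup (SLZ n)) (W : ℕ → Submodule ℚ (VQ n)) (X : MQ n) : Prop :=
  (∀ i, ∀ w ∈ W (i + 1), X *ᵥ w ∈ W i) ∧ ∀ t : ℚ, IsNilpotent.exp (t • X) ∈ ZQ (mz P)

/-- the span of `𝔲` and of the nilpotent parts of the elements of `P` -/
def ff {n : ℕ} (P : Subgroup (SLZ n)) (𝔲 : Submodule ℚ (MQ n)) : Submodule ℚ (MQ n) :=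
  𝔲 ⊔ Submodule.span ℚ {N | ∃ g ∈ P, ∃ s, JD (qg g) s N}

/-- the elements of `P` which act trivially on `W (i + 1) ⧸ W i` -/
def kerL {n : ℕ} (P : Subgroup (SLZ n)) (W : ℕ → Submodule ℚ (VQ n)) (i : ℕ) : Set (SLZ n) :=
  {g | g ∈ P ∧ ∀ w ∈ W (i + 1), qg g *ᵥ w - w ∈ W i}

/-- a generic vector is fixed by some `g ≠ 1` in `S` -/
def GStar {n : ℕ} (S : Set (SLZ n)) : Prop :=
  Gen (fun u : VQ n => ∃ g ∈ S, g ≠ 1 ∧ qg g *ᵥ u = u)

/-- `M u` is generically equal to an element of `exp 𝔢 * m` which fixes `u` modulo `W i` -/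
def SolvG {n : ℕ} (𝔢 : Submodule ℚ (MQ n)) (m : MQ n) (M : Submodule ℚ (VQ n)) (u : VQ n) :
    Prop := ∃ X ∈ 𝔢, IsNilpotent.exp X *ᵥ (m *ᵥ u) - u ∈ M

/-- a rational family of elements of the closures of the stabilisers `P_u`, not scalar modulo `u` -/
def RFam {n : ℕ} (P : Subgroup (SLZ n)) : Prop :=
  ∃ y : VQ n → MQ n, RF y ∧ Gen (fun u => y u ∈ ZQ (fixP P u)) ∧
    Gen (fun u => ∃ w : VQ n, y u *ᵥ w ∉ Submodule.span ℚ {u, w})

/-- the exponentials of the elements of `𝔢` -/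
def Ex {n : ℕ} (𝔢 : Submodule ℚ (MQ n)) : Set (MQ n) := {x | ∃ X ∈ 𝔢, x = IsNilpotent.exp X}

/-- the matrices which lower the flag `W` by `i` steps -/
def fil {n : ℕ} (W : ℕ → Submodule ℚ (VQ n)) (i : ℕ) : Submodule ℚ (MQ n) where
  carrier := {X | ∀ a, ∀ w ∈ W a, X *ᵥ w ∈ W (a - i)}
  add_mem' := by
    intro X Y hX hY a w hw
    rw [Matrix.add_mulVec]
    exact (W (a - i)).add_mem (hX a w hw) (hY a w hw)
  zero_mem' := by
    intro a w _
    rw [Matrix.zero_mulVec]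
    exact (W (a - i)).zero_mem
  smul_mem' := by
    intro c X hX a w hw
    rw [Matrix.smul_mulVec]
    exact (W (a - i)).smul_mem c (hX a w hw)

theorem mem_fil {n : ℕ} {W : ℕ → Submodule ℚ (VQ n)} {i : ℕ} {X : MQ n} :
    X ∈ fil W i ↔ ∀ a, ∀ w ∈ W a, X *ᵥ w ∈ W (a - i) := Iff.rfl

theorem fil_mul {n : ℕ} {W : ℕ → Submodule ℚ (VQ n)} {i j : ℕ} {X Y : MQ n}
    (hX : X ∈ fil W i) (hY : Y ∈ fil W j) : X * Y ∈ fil W (i + j) := by
  intro a w hw
  rw [← mulVec_mulVec]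
  have h1 := hX (a - j) _ (hY a w hw)
  rwa [Nat.sub_sub, Nat.add_comm j i] at h1

theorem fil_anti {n : ℕ} {W : ℕ → Submodule ℚ (VQ n)} (hW : Monotone W) (i : ℕ) :
    fil W (i + 1) ≤ fil W i := by
  intro X hX a w hw
  exact hW (by omega) (hX a w hw)

theorem fil_bot {n : ℕ} {W : ℕ → Submodule ℚ (VQ n)} {k : ℕ} (h0 : W 0 = ⊥) (hk : W k = ⊤) :
    fil W k = ⊥ := by
  rw [Submodule.eq_bot_iff]
  intro X hX
  apply Matrix.toLin'.injective
  apply LinearMap.ext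
  intro w
  rw [Matrix.toLin'_apply, map_zero, LinearMap.zero_apply]
  have h1 := hX k w (by rw [hk]; trivial)
  rw [Nat.sub_self, h0] at h1
  exact (Submodule.mem_bot ℚ).1 h1

theorem mem_fil_one {n : ℕ} {W : ℕ → Submodule ℚ (VQ n)} (h0 : W 0 = ⊥) {X : MQ n} :
    X ∈ fil W 1 ↔ ∀ i, ∀ w ∈ W (i + 1), X *ᵥ w ∈ W i := by
  constructor
  · intro h i w hw
    exact h (i + 1) w hw
  · intro h a w hw
    cases a with
    | zero =>
      rw [h0, Submodule.mem_bot] at hw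
      rw [hw, Matrix.mulVec_zero]
      exact (W _).zero_mem
    | succ a => exact h a w hw

/-- elements of `fil W 1` are nilpotent -/
theorem fil_one_nil {n : ℕ} {W : ℕ → Submodule ℚ (VQ n)} {k : ℕ} (h0 : W 0 = ⊥) (hk : W k = ⊤)
    {X : MQ n} (hX : X ∈ fil W 1) : IsNilpotent X := by
  have h1 : ∀ i, X ^ i ∈ fil W i := by
    intro i
    induction i with
    | zero =>
      intro a w hw
      rw [pow_zero, Matrix.one_mulVec]
      exact hw
    | succ i ih =>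
      rw [pow_succ]
      exact fil_mul ih hX
  refine ⟨k, ?_⟩
  have h2 := h1 k
  rw [fil_bot h0 hk] at h2
  exact (Submodule.mem_bot ℚ).1 h2

/-- `v` is fixed and `u` is fixed modulo `v` by an element of infinite order, for all `u` -/
def RedV {n : ℕ} (P : Subgroup (SLZ n)) (v : VQ n) : Prop :=
  ∀ u : VQ n, ∃ g ∈ P, (∀ j : ℕ, 0 < j → g ^ j ≠ 1) ∧ qg g *ᵥ v = v ∧
    ∃ c : ℚ, qg g *ᵥ u - u = c • v

/-- exponential polynomials in `k` with coefficients polynomial in `x` -/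
def CF (Λ : Subgroup KBˣ) (ψ : ℕ → ℚ → KB) : Prop :=
  ∃ (t : Finset KBˣ) (p : KBˣ → Polynomial KB), (∀ z ∈ t, z ∈ Λ) ∧
    ∀ k x, ψ k x = ∑ z ∈ t, (p z).eval (algebraMap ℚ KB x) * (z : KB) ^ k

end Pool.Agent.BS
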