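import Pool.Agent.helper73.BS.Basic

/-!
# Project bs (MP_a2a22c_al): every solvable subgroup of a thin subgroup of `SL(n, ℤ)` has Hirsch length `≤ n - 1`

FINAL: `n ≥ 3`, `G` finitely generated, residually finite, with the same finite quotients as `SL(n, ℤ)`, not
isomorphic to `SL(n, ℤ)` (or: Zariski dense of infinite index in `SL(n, ℤ)`). Then every solvable subgroup of `G` has
Hirsch length `≤ n - 1`. It follows from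

THEOREM B. Let `n ≥ 3`, `H ≤ SL(n, ℤ)` Zariski dense, `P ≤ H` solvable and let every vector be fixed by some element of
infinite order of `P` (`PStar P`). Then `H` has finite index.

Row `bs:XX` proves `theorem XX (hYY : YY_stmt) ... : XX_stmt` (the hypotheses are in its lock note) in
`Pool/Agent/<seat>/BS/XX.lean`, `import Pool.Agent.helper73.BS.Spec`, namespace `Pool.Agent.BS`, auxiliary
lemmas with the prefix `XX_`. Definitions and API: `Pool/Agent/helper73/BS/Basic.lean` and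
`Pool/Agent/helper54/UG/Basic.lean` (`SLZ`, `MQ`, `qg`, `e0`, `fx`, `St`, `Hb`, `Zc`, `PC`, ...). `UG.EXJ_stmt`, `UG.LG_stmt`,
`UG.LIN_stmt`, `UG.ISO_stmt`, ... are in `Pool/Agent/helper54/UG/Spec.lean` (all proved; they enter as hypotheses).
`exp` = `IsNilpotent.exp`, `E₀ = Ex 𝔲`, `𝒫 = ZQ (mz P)`.
-/

set_option autoImplicit false

namespace Pool.Agent.BS

open Matrix Module Pool.Agent.UG Pool.Agent.H48SL Pool.Agent.SHL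

/-! ### A. Exponential polynomials and the Jordan decomposition -/

/-- **XI** (independence of exponential polynomials). Induction on `∑_{z ∈ s} (natDegree (p z) + 1)` (over the `z ∈ s` with `p z ≠ 0`). Suppose
`p z₀ ≠ 0`, `f k = ∑ p_z(k) z ^ k = 0`. `0 = f (k + 1) - z₀ f k = ∑_z (z p_z(k + 1) - z₀ p_z(k)) z ^ k`. For `z = z₀` the new polynomial
`z₀ (p(X + 1) - p(X))` has smaller degree (or is `0`), for `z ≠ z₀` the degree is the same (leading coefficient times `z - z₀`). So by induction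
all new polynomials are `0`: `p_z = 0` for `z ≠ z₀`, and `p(X + 1) = p(X)`, so `p = p_{z₀}` is a constant `c` (characteristic `0`), `c z₀ ^ k = 0`. -/
def XI_stmt : Prop := ∀ (K : Type) [Field K] [CharZero K] (s : Finset Kˣ) (p : Kˣ → Polynomial K),
  (∀ k : ℕ, ∑ z ∈ s, (p z).eval (k : K) * (z : K) ^ k = 0) → ∀ z ∈ s, p z = 0

/-- **XA** (`CF Λ` is an algebra). Constants: `t = {1}`. A sum of functions of the form `p(x) z ^ k`, `z ∈ Λ` (with repetitions) is in `CF Λ` (collect equal `z`); this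
gives sums and products (`p(x) z ^ k * q(x) w ^ k = (p q)(x) (z w) ^ k`). -/
def XA_stmt : Prop := ∀ Λ : Subgroup KBˣ,
  (∀ c : KB, CF Λ (fun _ _ => c)) ∧ CF Λ (fun _ x => algebraMap ℚ KB x) ∧
  (∀ z ∈ Λ, CF Λ (fun k _ => (z : KB) ^ k)) ∧
  (∀ ψ χ : ℕ → ℚ → KB, CF Λ ψ → CF Λ χ → CF Λ (fun k x => ψ k x + χ k x)) ∧
  (∀ ψ χ : ℕ → ℚ → KB, CF Λ ψ → CF Λ χ → CF Λ (fun k x => ψ k x * χ k x))

/-- **XZ** (from XA; powers of a semisimple matrix). `μ = minpoly ℚ s` is squarefree (`Module.End.IsSemisimple.minpoly_squarefree`), so it is separable and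
`μ = ∏ (X - θ)` over `KB` with distinct roots `θ`, which are eigenvalues of `s` (nonzero, in `Λ`). Lagrange interpolation: `X ^ k - ∑_θ θ ^ k L_θ` vanishes at all
roots, so it is divisible by `μ`, so `s ^ k = ∑_θ θ ^ k L_θ(s)` over `KB`. `s⁻¹` is semisimple with the eigenvalues `θ⁻¹ ∈ Λ` (or: use `θ⁻¹ ^ k` and
`s * ∑ θ⁻¹ L_θ(s) = 1`). -/
def XZ_stmt : Prop := ∀ (n : ℕ) (s : MQ n) (Λ : Subgroup KBˣ), IsUnit s.det →
  Module.End.IsSemisimple (Matrix.toLin' s) →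
  (∀ (l : KB) (w : Fin n → KB), w ≠ 0 → s.map (algebraMap ℚ KB) *ᵥ w = l • w → ∃ z ∈ Λ, (z : KB) = l) →
  ∀ i j, CF Λ (fun k _ => algebraMap ℚ KB ((s ^ k) i j)) ∧ CF Λ (fun k _ => algebraMap ℚ KB ((s⁻¹ ^ k) i j))

/-- **JE** (from LG; Jordan decomposition). `Module.End.exists_isNilpotent_isSemisimple` for `y`: `y = s + m`, `s, m ∈ adjoin {y}`, `s` semisimple, `m` nilpotent; `s` is
invertible (`y - m`, commuting), `s⁻¹ ∈ adjoin {s}` (Cayley-Hamilton), `y = s (1 + s⁻¹ m)`, `N = aeval (s⁻¹ m) P`, `exp N = 1 + s⁻¹ m`. Uniqueness: `s'`, `N'` commute with `y`, so with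
`s`, `N`; `y = s' + m'`, `m' = s' (exp N' - 1)` nilpotent; `s - s' = m' - m` is semisimple (`IsSemisimple.sub_of_commute`) and nilpotent, so `0`
(`Module.End.eq_zero_of_isNilpotent_isSemisimple` or similar), and `exp N = exp N'` gives `N = N'` (LG: `aeval (exp Z - 1) P = Z`). -/
def JE_stmt : Prop := ∀ (n : ℕ) (y : MQ n), IsUnit y.det → ∃ s N : MQ n, JD y s N ∧
  s ∈ Algebra.adjoin ℚ {y} ∧ N ∈ Algebra.adjoin ℚ {y} ∧ ∀ s' N' : MQ n, JD y s' N' → s' = s ∧ N' = N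

/-- **JZ** (from XI, XA, XZ, EXJ; the Jordan parts are in the closure of the powers). `y ^ k = s ^ k exp (k N)`. Let `F` vanish on all `y ^ j`.
`ψ(k, x) = F(s ^ k exp (x N)) ∈ CF ⊤` (`exp (x N) = ∑_{i < n} x ^ i N ^ i / i!`), `ψ(k, k) = 0` for all `k`, so all the polynomials of `ψ` are `0` (XI) and `ψ = 0`. -/
def JZ_stmt : Prop := ∀ (n : ℕ) (y s N : MQ n), IsUnit y.det → JD y s N →
  ∀ (k : ℕ) (x : ℚ), s ^ k * IsNilpotent.exp (x • N) ∈ ZQ {z | ∃ j : ℕ, z = y ^ j}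

/-- **JN** (from XI, XA, XZ, JE, EXJ; neat matrices). JE: `y = s exp N`. The eigenvalues of `s` are eigenvalues of `y` (`s`, `N` commute: on the eigenspace of `s` take a vector killed by `N`). Let `F` vanish on all
`y ^ (m j)`. `ψ(k, x) = F(s ^ k exp (x N)) = ∑_{z ∈ t} p_z(x) z ^ k ∈ CF Λ`, `Λ` from `Neat`; `0 = ψ(m j, m j) = ∑_z p_z(m j) (z ^ m) ^ j` and the `z ^ m` are distinct (`Λ` has no
torsion), so `p_z(m X) = 0`, `p_z = 0` (XI), `ψ = 0`, `F(y ^ k) = ψ(k, k) = 0`. -/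
def JN_stmt : Prop := ∀ (n : ℕ) (y : MQ n), IsUnit y.det → Neat y → ∀ m : ℕ, 1 ≤ m → ∀ k : ℕ,
  y ^ k ∈ ZQ {z | ∃ j : ℕ, z = y ^ (m * j)}

/-- **JS** (from XI, XA, XZ). Let `F` vanish on `E`. `ψ(k, x) = F(exp (-x N) s' ^ k s⁻¹ ^ k) ∈ CF ⊤`, `ψ(k, k) = 0` for all `k`, so `ψ = 0` (XI) and `ψ(0, x) = F(exp (-x N)) = 0`.
So `exp (-x N) ∈ ZQ E ⊆ E` for all `x`. (`s' = exp N * s` is invertible.) -/
def JS_stmt : Prop := ∀ (n : ℕ) (E : Set (MQ n)) (s s' N : MQ n), ZQ E ⊆ E → IsUnit s.det →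
  Module.End.IsSemisimple (Matrix.toLin' s) → Module.End.IsSemisimple (Matrix.toLin' s') → IsNilpotent N →
  s' = IsNilpotent.exp N * s →
  (∀ k : ℕ, IsNilpotent.exp (-(k : ℚ) • N) * s' ^ k * s⁻¹ ^ k ∈ E) → ∀ x : ℚ, IsNilpotent.exp (x • N) ∈ E

/-- **JW** (from JE; if `y` is unipotent on `A / B` then `s` is trivial on it). `s`, `N` are polynomials in `y` (JE, uniqueness), so `A`, `B` are stable under `s`, `N`. On `A / B`: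
`s - 1 = (y - 1) exp (-N) + (exp (-N) - 1)` is nilpotent (`s = y exp (-N)`), `(s - 1) ^ r A ⊆ B`. `μ = minpoly ℚ s` is squarefree, so `gcd (μ, (X - 1) ^ r)` divides `X - 1`:
`X - 1 = a μ + b (X - 1) ^ r`, `(s - 1) A = b(s) (s - 1) ^ r A ⊆ B`. -/
def JW_stmt : Prop := ∀ (n : ℕ) (y s N : MQ n), IsUnit y.det → JD y s N → ∀ A B : Submodule ℚ (VQ n), B ≤ A →
  (∀ w ∈ A, y *ᵥ w ∈ A) → (∀ w ∈ B, y *ᵥ w ∈ B) → (∀ w ∈ A, y *ᵥ (y *ᵥ w - w) - (y *ᵥ w - w) ∈ B) →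
  ∀ w ∈ A, s *ᵥ w - w ∈ B

/-- **EI** (from LG). `aeval (exp X - 1) P = X`. -/
def EI_stmt : Prop := ∀ (n : ℕ) (X Y : MQ n), IsNilpotent X → IsNilpotent Y →
  IsNilpotent.exp X = IsNilpotent.exp Y → X = Y

/-! ### B. Zariski closures of solvable groups -/

/-- **ZG** (the closure is a group). For fixed `g ∈ P`, `F(g x)` is a polynomial in `x` which vanishes on `P`, so on `𝒫`; for fixed `x ∈ 𝒫`, `F(y x)` vanishes for `y ∈ P`,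
so for `y ∈ 𝒫`. `det - 1` vanishes on `P`. `F(adjugate x)` is a polynomial in `x` and `x⁻¹ = adjugate x` if `det x = 1`. -/
def ZG_stmt : Prop := ∀ (n : ℕ) (P : Subgroup (SLZ n)),
  (∀ x ∈ ZQ (mz P), ∀ y ∈ ZQ (mz P), x * y ∈ ZQ (mz P)) ∧
  (∀ x ∈ ZQ (mz P), x.det = 1 ∧ x⁻¹ ∈ ZQ (mz P))

/-- **ZC** (from ZG; commutators). `F(x y (adjugate x) (adjugate y))` is a polynomial in `x` for fixed `y = qg h`, `h ∈ P`, `0` for `x ∈ P`, so for `x ∈ 𝒫`; then for fixed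
`x ∈ 𝒫` it is a polynomial in `y` which vanishes on `P`, so on `𝒫`. -/
def ZC_stmt : Prop := ∀ (n : ℕ) (P : Subgroup (SLZ n)) (E : Set (MQ n)), ZQ E ⊆ E →
  (∀ g ∈ P, ∀ h ∈ P, qg (g * h * g⁻¹ * h⁻¹) ∈ E) →
  ∀ x ∈ ZQ (mz P), ∀ y ∈ ZQ (mz P), x * y * x⁻¹ * y⁻¹ ∈ E

/-- **ZE** (from LG; `exp 𝔲` is closed). Elements of `𝔲` are in `fil W 1`, `X ^ k = 0` (`fil_bot`), so `(exp X - 1) ^ k = 0`. `x ∈ Ex 𝔲` iff `(x - 1) ^ k = 0` and `ℓ (aeval (x - 1) P) = 0`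
for all linear forms `ℓ` on `MQ n` which vanish on `𝔲` (LG; `Submodule.exists_le_ker_of_notMem`). These are polynomial conditions. -/
def ZE_stmt : Prop := ∀ (n : ℕ) (𝔲 : Submodule ℚ (MQ n)) (k : ℕ) (W : ℕ → Submodule ℚ (VQ n)),
  W 0 = ⊥ → W k = ⊤ → (∀ X ∈ 𝔲, ∀ i, ∀ w ∈ W (i + 1), X *ᵥ w ∈ W i) → ZQ (Ex 𝔲) ⊆ Ex 𝔲

/-- **RL** (from LG, LIN, EXJ, ZG; `Rad` is a subspace). `LIN_stmt` for `fil W` (`fil_mul`, `fil_anti`, `fil_bot`) and `S = {X | Rad P W X}` (`mem_fil_one`). Products: `X, Y ∈ S`, `M = exp X * exp Y`, `M - 1 ∈ fil W 1`,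
`Z = aeval (M - 1) P ∈ fil W 1`, `exp Z = M`. For `j : ℕ` `exp (j Z) = M ^ j ∈ 𝒫` (ZG), and `F(exp (t Z))` is a polynomial in `t` (`EXJ`, `PC`) which vanishes at all `t = j`, so
`exp (t Z) ∈ 𝒫` for all `t`. -/
def RL_stmt : Prop := ∀ (n : ℕ) (P : Subgroup (SLZ n)) (𝔲 : Submodule ℚ (MQ n)) (k : ℕ)
  (W : ℕ → Submodule ℚ (VQ n)), FS P 𝔲 k W → ∀ X Y : MQ n, Rad P W X → Rad P W Y → Rad P W (X + Y)

/-- **RU** (from JZ, EXJ, ZG). `X ∈ 𝔲`: `exp (j X) ∈ mz P` for some `j ≥ 1` (`lat`), so `exp (i j X) ∈ mz P` for `i : ℕ`; `F(exp (t X))` is a polynomial in `t` which vanishes at all `t = i j`. `y ∈ 𝒫`: all `y ^ j ∈ 𝒫`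
(ZG), so the closure of the powers is in `𝒫` (`ZQ_min`); JZ with `k = 0` and `k = 1, x = 0`; `FS.ss`. -/
def RU_stmt : Prop := ∀ (n : ℕ) (P : Subgroup (SLZ n)) (𝔲 : Submodule ℚ (MQ n)) (k : ℕ)
  (W : ℕ → Submodule ℚ (VQ n)), FS P 𝔲 k W → (∀ X ∈ 𝔲, Rad P W X) ∧
    ∀ y ∈ ZQ (mz P), ∀ s N : MQ n, JD y s N → Rad P W N ∧ s ∈ ZQ (mz P)

/-- **RS** (from ZG, ZC, ZE, RL, RU, LG, EI, EXJ; `𝒫 / E₀` is commutative). Let `B₀ = X + Y`, `A(t) = exp (t X) exp (t Y) exp (-t B₀) ∈ 𝒫`. (1) `E₀` is closed under products and inverses (`grp`, `exp (-X)`), all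
commutators of elements of `𝒫` are in `E₀` (ZC, ZE, `com`), so `g E₀ g⁻¹ = E₀` for `g ∈ 𝒫`. Modulo `E₀` everything commutes: `A(t + t') ∈ E₀ A(t) A(t')`. (2) `Z₁ = aeval (A(1) - 1) P`, `exp Z₁ = A(1)`. For `j : ℕ` `A(j) exp (-j Z₁) ∈ E₀` (the
group element is `≡ A(1) ^ j A(1) ^ (-j)`). `C(t) = A(t) exp (-t Z₁)` is a polynomial curve (`PC`), so `C(t) ∈ ZQ E₀ = E₀` for all `t`. (3) `D(t) = aeval (C(t) - 1) P ∈ 𝔲` for all `t`, a polynomial curve with `D(0) = 0`,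
`D(t) = t D₁(t)`, `D₁(0) ∈ 𝔲` (`PC.mem_zero`), and `D₁(0) = X + Y - B₀ - Z₁ = -Z₁` (first order terms). So `Z₁ ∈ 𝔲`, `A(1) = exp X exp Y exp (-(X + Y)) ∈ E₀`. (4) `Z = aeval (exp X exp Y - 1) P` is `Rad` (as in RL), `exp Z = exp X exp Y`; by (3) for the pair
`Z`, `-(X + Y)`: `exp Z exp (-(X + Y)) exp (-(Z - X - Y)) ∈ E₀`, so `exp (Z - X - Y) ∈ E₀` and `Z - X - Y ∈ 𝔲` (EI; `RL` for `Rad (Z - X - Y)`). -/
def RS_stmt : Prop := ∀ (n : ℕ) (P : Subgroup (SLZ n)) (𝔲 : Submodule ℚ (MQ n)) (k : ℕ)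
  (W : ℕ → Submodule ℚ (VQ n)), FS P 𝔲 k W → ∀ X Y : MQ n, Rad P W X → Rad P W Y →
    ∃ Z : MQ n, Rad P W Z ∧ IsNilpotent.exp X * IsNilpotent.exp Y = IsNilpotent.exp Z ∧ Z - X - Y ∈ 𝔲

/-- **RC** (from ZG, ZC, ZE, RL, RS, EI, EXJ). `g W i ⊆ W i` and `g⁻¹ W i ⊆ W i` for `g ∈ 𝒫` (linear conditions which hold on `P`). `X' = g X g⁻¹`: `exp (t X') = g exp (t X) g⁻¹ ∈ 𝒫`, so `Rad X'`.
`exp X' exp (-X) = [g, exp X] ∈ E₀` (ZC, ZE). RS for `X'`, `-X`: it is `exp Z`, `Z - X' + X ∈ 𝔲`, and `Z ∈ 𝔲` by EI. -/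
def RC_stmt : Prop := ∀ (n : ℕ) (P : Subgroup (SLZ n)) (𝔲 : Submodule ℚ (MQ n)) (k : ℕ)
  (W : ℕ → Submodule ℚ (VQ n)), FS P 𝔲 k W → ∀ X : MQ n, Rad P W X → ∀ g ∈ ZQ (mz P), g * X * g⁻¹ - X ∈ 𝔲

/-- **RA** (from ZG, ZC, ZE, RL, RU, RS, JS, EI, EXJ; the unipotent part is additive modulo `𝔲`). `s' = exp (-N') exp X exp N s` (`exp N`, `s` commute), `s, s' ∈ 𝒫`, `N`, `N'` are `Rad` (RU, ZG). RS twice:
`exp (-N') exp X exp N = exp Z`, `Z - X - N + N' ∈ 𝔲`, `Rad Z`. JS with `E = Ex 𝔲`: `𝒫 / E₀` is commutative and `s' = exp Z s`, so `exp (-k Z) s' ^ k s⁻¹ ^ k ∈ E₀`. So `exp Z ∈ E₀`, `Z ∈ 𝔲` (EI). -/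
def RA_stmt : Prop := ∀ (n : ℕ) (P : Subgroup (SLZ n)) (𝔲 : Submodule ℚ (MQ n)) (k : ℕ)
  (W : ℕ → Submodule ℚ (VQ n)), FS P 𝔲 k W → ∀ X : MQ n, Rad P W X → ∀ y ∈ ZQ (mz P), ∀ s N s' N' : MQ n,
    JD y s N → JD (IsNilpotent.exp X * y) s' N' → N' - X - N ∈ 𝔲

/-- **FF** (from ZG, RL, RU, RS, RC, RA, JE, EXJ). (1) RU, RL (`Submodule.span_induction`, scalar multiples are clear). (2) RS: `Z - X - Y ∈ 𝔲 ≤ ff`. (3) RC. (4) RA for `y = qg g`, with the Jordan decomposition `s₀`, `N₀`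
of `qg g` (JE): `N - X - N₀ ∈ 𝔲`, `N₀ ∈ ff`. -/
def FF_stmt : Prop := ∀ (n : ℕ) (P : Subgroup (SLZ n)) (𝔲 : Submodule ℚ (MQ n)) (k : ℕ)
  (W : ℕ → Submodule ℚ (VQ n)), FS P 𝔲 k W →
    (∀ X ∈ ff P 𝔲, Rad P W X) ∧
    (∀ X ∈ ff P 𝔲, ∀ Y ∈ ff P 𝔲, ∃ Z ∈ ff P 𝔲,
      IsNilpotent.exp X * IsNilpotent.exp Y = IsNilpotent.exp Z ∧ Z - X - Y ∈ 𝔲) ∧
    (∀ X ∈ ff P 𝔲, ∀ g ∈ ZQ (mz P), g * X * g⁻¹ ∈ ff P 𝔲 ∧ g * X * g⁻¹ - X ∈ 𝔲) ∧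
    (∀ X ∈ ff P 𝔲, ∀ g ∈ P, ∀ s N s₀ N₀ : MQ n, JD (IsNilpotent.exp X * qg g) s N → JD (qg g) s₀ N₀ →
      N ∈ ff P 𝔲 ∧ N - X - N₀ ∈ 𝔲)

/-! ### C. Generic stabilisers -/

/-- **GL** (generic solution of linear systems). Let `F` be the fraction field of `MvPolynomial (Fin n) ℚ`. If `b` is in the span of the columns of `A` over `F`, clear denominators. Otherwise there is a linear form on
`F ^ m` which is `0` on the columns and `1` on `b`; after clearing denominators: polynomials `y_i`, `∑ y_i A_ij = 0` for all `j`, `∑ y_i b_i = e ≠ 0`. By hypothesis (for the polynomial `e`) there is `u` with `e(u) ≠ 0` for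
which the system has a solution `x`: `e(u) = ∑ y_i(u) b_i(u) = ∑ y_i(u) A_ij(u) x_j = 0`. -/
def GL_stmt : Prop := ∀ (n m r : ℕ) (A : Fin m → Fin r → MvPolynomial (Fin n) ℚ) (b : Fin m → MvPolynomial (Fin n) ℚ),
  ¬ Gen (fun u : VQ n => ¬ ∃ x : Fin r → ℚ, ∀ i, ∑ j, MvPolynomial.eval u (A i j) * x j = MvPolynomial.eval u (b i)) →
  ∃ (x : Fin r → MvPolynomial (Fin n) ℚ) (d : MvPolynomial (Fin n) ℚ), d ≠ 0 ∧
    ∀ (u : VQ n) (i : Fin m), ∑ j, MvPolynomial.eval u (A i j) * MvPolynomial.eval u (x j)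
      = MvPolynomial.eval u d * MvPolynomial.eval u (b i)

/-- **GE** (from GL, EXJ, LG; generic solution of `exp X m u ≡ u`). Downward induction on `j`, `i ≤ j ≤ k`: there is `g_j` with `RF g_j` and generically `g_j u = exp X`, `X ∈ 𝔢`, `g_j u m u - u ∈ W j`. `g_k = 1`. Step from
`j + 1` to `j ≥ i`: let `w(u) = g_{j+1}(u) m u ∈ u + W (j + 1)`. For `u` in the dense set of the hypothesis (and generic) there is `e ∈ Ex 𝔢` with `e m u - u ∈ W i ≤ W j`, `e = e' g_{j+1}(u)`, `e' = exp Y`, `Y ∈ 𝔢` (`grp` and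
`exp (-X)`). `(e' - 1) w ∈ u - w + W j ⊆ W (j + 1)`, so `(e' - 1) ^ 2 w ∈ W j` and `Y w ≡ (e' - 1) w` (`Y = aeval (e' - 1) P`, `P = X + X² (...)`), `Y w ≡ Y u` modulo `W j` (`w - u ∈ W (j + 1)`): `Y u ≡ u - w(u)`. With a basis
`B_a` of `𝔢` and linear forms `ℓ_b` with common kernel `W j` this is a linear system for the coordinates of `Y` with rational right side; after multiplication by a denominator of `w` GL gives a rational solution `Y(u) ∈ 𝔢` (`RF`),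
`g_j = exp (Y u) * g_{j+1}`: `exp (Y u) w = w + Y w + ... ≡ w + Y u ≡ u` modulo `W j`, as `Y w ≡ Y u ∈ W (j + 1)`. (`exp (Y u) = ∑_{i < k} (Y u) ^ i / i!`, `RF.sum`, `RF.smul`, `RF.pow`.) -/
def GE_stmt : Prop := ∀ (n k : ℕ) (𝔢 : Submodule ℚ (MQ n)) (W : ℕ → Submodule ℚ (VQ n)) (m : MQ n),
  Monotone W → W 0 = ⊥ → W k = ⊤ → (∀ X ∈ 𝔢, ∀ i, ∀ w ∈ W (i + 1), X *ᵥ w ∈ W i) →
  (∀ X ∈ 𝔢, ∀ Y ∈ 𝔢, ∃ Z ∈ 𝔢, IsNilpotent.exp X * IsNilpotent.exp Y = IsNilpotent.exp Z) →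
  ∀ i : ℕ, i ≤ k → ¬ Gen (fun u => ¬ SolvG 𝔢 m (W i) u) →
  ∃ g : VQ n → MQ n, RF g ∧ Gen (fun u => (∃ X ∈ 𝔢, g u = IsNilpotent.exp X) ∧ g u *ᵥ (m *ᵥ u) - u ∈ W i)

/-- **GD** (from GL; a generic dichotomy). Let `b_1, ..., b_r` be a basis of `B`, `C u` the condition that for all `j` there is `X ∈ 𝔢` with `X u - b_j ∈ A` (it is equivalent to the condition of the statement). If not
`Gen (¬ C)` then for every `j` the linear system `X u - b_j ∈ A` (unknowns: the coordinates of `X` in a basis of `𝔢`) is solvable for a dense set of `u`, so by GL for generic `u` (`d(u) ≠ 0`, divide by `d(u)`). -/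
def GD_stmt : Prop := ∀ (n : ℕ) (𝔢 : Submodule ℚ (MQ n)) (A B : Submodule ℚ (VQ n)),
  Gen (fun u : VQ n => ∀ w ∈ B, ∃ X ∈ 𝔢, X *ᵥ u - w ∈ A) ∨
  Gen (fun u : VQ n => ¬ ∀ w ∈ B, ∃ X ∈ 𝔢, X *ᵥ u - w ∈ A)

/-- **GI** (generic injectivity). A basis `X_1, ..., X_r` of `𝔢`; the Gram matrix `G_ij = ∑_k (X_i u)_k (X_j u)_k` has entries in `MvPolynomial (Fin n) ℚ`; if `X ↦ X u₀` is injective on `𝔢` then `G(u₀)` is positive definite,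
`det G(u₀) ≠ 0`, so `det G ≠ 0`, and for `u` with `det G(u) ≠ 0` it is injective. (Compare CRA in `Pool/Agent/helper88/UG/CRA.lean`.) -/
def GI_stmt : Prop := ∀ (n : ℕ) (𝔢 : Submodule ℚ (MQ n)),
  (∃ u : VQ n, ∀ X ∈ 𝔢, X *ᵥ u = 0 → X = 0) → Gen (fun u : VQ n => ∀ X ∈ 𝔢, X *ᵥ u = 0 → X = 0)

/-- **CL** (from FF, GE, GD, JE, JW, ZG, ZC, ZE, LG, EXJ; all elements are generically solvable). `𝔣 = ff P 𝔲`. Downward induction on `i ≤ k`, S(i): for all `g ∈ P` generically `SolvG 𝔣 (qg g) (W i) u`. S(k) is clear, S(0) is the claim (`W 0 = ⊥`).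
Let S(i + 1). Let `T(u)` be the set of all `w ∈ W (i + 1)` with `X u - w ∈ W i` for some `X ∈ 𝔣`, a subspace. GD for `𝔣`, `A = W i`, `B = W (i + 1)`.
Case 1: generically `T(u) = W (i + 1)`. For `g ∈ P`: `w = exp X g u - u ∈ W (i + 1)`; `Y ∈ 𝔣`, `Y u + w ∈ W i`; `exp Y exp X g u = exp Y (u + w) ≡ u + Y u + w ≡ u` modulo `W i` (`Y u ∈ W (i + 1)`, so `Y ^ 2 u ∈ W i`; `exp Y w ≡ w`).
Case 2: all `g ∈ P` are trivial on `W (i + 1) / W i`. `y = exp X g`, `(y - 1) u ∈ W (i + 1)`, `(y - 1) W (i + 1) ⊆ W i`. JW with `A = ℚ u + W (i + 1)`, `B = W i`: `s u - u ∈ W i` for the Jordan decomposition `y = s exp N` (JE), `N ∈ 𝔣` (FF (4)),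
`s = exp (-N) exp X g = exp Z g`, `Z ∈ 𝔣` (FF (2)).
Case 3: generically `T(u) ≠ W (i + 1)` and some `g₀ ∈ P` is not trivial on `W (i + 1) / W i`. (a) Generically not `SolvG 𝔣 (qg g₀) (W i) u`: otherwise by GE it is generically true. Choose a nonzero polynomial `f` such that `f(u) ≠ 0` implies `SolvG 𝔣 (qg g₀) (W i) u` and
`T(u) ≠ W (i + 1)`, and `u` with `f(u) ≠ 0`. For `w ∈ W (i + 1)` with `f(u + w) ≠ 0`: `y' = exp X' g₀`, `y' u ≡ u`, `y'' = exp X'' g₀`, `y'' (u + w) ≡ u + w` modulo `W i`, `y'' = exp Z y'`, `Z ∈ 𝔣`: `u + w ≡ exp Z (u + g₀ w) ≡ exp Z u + g₀ w`, so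
`exp Z u - u ≡ w - g₀ w`, `Z u ≡ exp Z u - u` (as `(exp Z - 1) u ∈ W (i + 1)`; LG), so `w - g₀ w ∈ T(u)`. For arbitrary `w ∈ W (i + 1)` the polynomial `f(u + t w)` in `t` is not `0` at `t = 0`, so `f(u + t w) ≠ 0` for some `t ≠ 0`: `t (w - g₀ w) ∈ T(u)`. `g₀ - 1` is injective on
`W (i + 1) / W i` (`schur`), so surjective: `T(u) = W (i + 1)`, a contradiction. (b) For generic `u` every `y ∈ P` with `qg y u = u` is in `kerL P W i`: otherwise `y - 1` is injective on `W (i + 1) / W i` (`schur`). `y₀ = exp X₀ g₀`, `w₀ = y₀ u - u ∈ W (i + 1)` (S(i + 1)),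
`y y₀ = e y₀ y`, `e ∈ E₀` (ZC, ZE, `com`; FF (1) for `exp X₀ ∈ 𝒫`): `u + y w₀ = e (u + w₀)`, so `e u - u ≡ (y - 1) w₀` modulo `W i`, and `(y - 1) w₀ ∈ T(u)` (`e = exp X₁`, `X₁ ∈ 𝔲 ≤ 𝔣`, `X₁ u ≡ e u - u`). `T(u)` is stable under `y` (`y X y⁻¹ ∈ 𝔣`, FF (3), `y u = u`), `y - 1` is
injective modulo `W i`, so `w₀ ∈ T(u)`, and as in Case 1 `SolvG 𝔣 (qg g₀) (W i) u`, a contradiction to (a). (c) So `GStar (kerL P W i)` (from `GStar P`), against the hypothesis. -/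
def CL_stmt : Prop := ∀ (n : ℕ) (P : Subgroup (SLZ n)) (𝔲 : Submodule ℚ (MQ n)) (k : ℕ)
  (W : ℕ → Submodule ℚ (VQ n)), FS P 𝔲 k W → GStar (P : Set (SLZ n)) →
  (∀ i, (∃ g ∈ P, ∃ w ∈ W (i + 1), qg g *ᵥ w - w ∉ W i) → ¬ GStar (kerL P W i)) →
  ∀ g ∈ P, Gen (SolvG (ff P 𝔲) (qg g) ⊥)

/-- **AD** (from FF, JE, GI, ZG, ZC, ZE, RS, EI, EXJ; additivity). Choose `u` with `SolvG` for `g`, `h` and with `X ↦ X u` injective on `𝔲` (GI, `Gen.and`, `Gen.exists`). `y = exp X g`, `z = exp Y h` fix `u`, `y, z ∈ 𝒫` (FF (1)). `y z y⁻¹ z⁻¹ = exp Z ∈ E₀` fixes `u`, so `Z u = 0`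
(EXJ), `Z = 0`: `y`, `z` commute. Their Jordan parts (JE) `s_y, N_y ∈ adjoin {y}`, `s_z, N_z ∈ adjoin {z}` commute, so `JD (y z) (s_y s_z) (N_y + N_z)` (`Module.End.IsSemisimple.mul_of_commute`). `y z = exp X exp (g Y g⁻¹) g h = exp Z' (g h)`, `Z' ∈ 𝔣`, `Z' - X - Y ∈ 𝔲` (FF (2), (3)).
FF (4) for `y`, `z`, `y z`: `N_y ≡ X + N`, `N_z ≡ Y + N'`, `N_y + N_z ≡ Z' + N'' ≡ X + Y + N''` modulo `𝔲`. -/
def AD_stmt : Prop := ∀ (n : ℕ) (P : Subgroup (SLZ n)) (𝔲 : Submodule ℚ (MQ n)) (k : ℕ)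
  (W : ℕ → Submodule ℚ (VQ n)), FS P 𝔲 k W → (∃ u : VQ n, ∀ X ∈ 𝔲, X *ᵥ u = 0 → X = 0) →
  (∀ g ∈ P, Gen (SolvG (ff P 𝔲) (qg g) ⊥)) → ∀ g ∈ P, ∀ h ∈ P, ∀ s N s' N' s'' N'' : MQ n,
  JD (qg g) s N → JD (qg h) s' N' → JD (qg (g * h)) s'' N'' → N'' - N - N' ∈ 𝔲

/-- **LC** (a lattice lemma). `ℤ[A]` is a finitely generated `ℤ`-module and contains `B = A⁻¹` (`B` is integral: `B ^ d + c_1 B ^ (d-1) + ... = 0`, multiply by `A ^ (d-1)`). `M = ℤ[A] x` is finitely generated, `A M = M`, `m M = ℤ[A] (m x) ≤ L`. `M / m M` is finite and `A` permutes it, so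
`A ^ j₀` is the identity on it for some `j₀ ≥ 1`. `∑_{l < m j₀} A ^ l x ≡ m ∑_{l < j₀} A ^ l x ≡ 0` modulo `m M`. -/
def LC_stmt : Prop := ∀ (V : Type) [AddCommGroup V] [Module ℚ V] (A B : Module.End ℚ V), A * B = 1 → B * A = 1 →
  IsIntegral ℤ A → IsIntegral ℤ B → ∀ L : AddSubgroup V, (∀ x ∈ L, A x ∈ L) → (∀ x ∈ L, B x ∈ L) →
  ∀ (x : V) (m : ℕ), 1 ≤ m → m • x ∈ L → ∃ j : ℕ, 1 ≤ j ∧ ∑ l ∈ Finset.range j, (A ^ l) x ∈ L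

/-- **PW** (from LC, LG, EXJ; powers). `fil i = fil W i`; all elements of `Ex 𝔲` are in `1 + fil 1`, and `exp Z - 1 - Z ∈ fil (2 i) ≤ fil (i + 1)` for `Z ∈ fil i`, `i ≥ 1`. By induction on `i ≥ 1` there are `M ≥ 1`, `Z ∈ 𝔲 ⊓ fil i`, `h ∈ P` with `(exp X g) ^ M = exp Z h`; `i = 1` is
clear, `i = max k 1` is the claim (`fil k = ⊥`). Step: `A = Ad(h) : Y ↦ h Y h⁻¹` on `MQ n`, integral (left and right multiplications by integral matrices commute and are integral: Cayley-Hamilton), and so is its inverse. `L` = the set of all `Y ∈ fil i` with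
`qg a - 1 - Y ∈ fil (i + 1)` for some `a ∈ P`, `qg a ∈ Ex 𝔲`: an additive subgroup, stable under `A`, `A⁻¹` (`FS.conj`, `FS.stab`). `exp (m Z) ∈ mz P` for some `m ≥ 1` (`lat`), so `m Z ∈ L`. LC: `∑_{l < j} A ^ l Z ∈ L`, with `a ∈ P`. `(exp Z h) ^ j = b h ^ j`,
`b = ∏_{l < j} h ^ l exp Z h ^ (-l) ∈ Ex 𝔲`, `b - 1 - ∑ A ^ l Z ∈ fil (i + 1)`, so `b a⁻¹ - 1 ∈ fil (i + 1)`, `b a⁻¹ ∈ Ex 𝔲`, `b a⁻¹ = exp Z₁`, `Z₁ ∈ 𝔲 ⊓ fil (i + 1)` (`Z₁ = aeval (b a⁻¹ - 1) P`), and `(exp Z h) ^ j = exp Z₁ (a h ^ j)`. -/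
def PW_stmt : Prop := ∀ (n : ℕ) (P : Subgroup (SLZ n)) (𝔲 : Submodule ℚ (MQ n)) (k : ℕ)
  (W : ℕ → Submodule ℚ (VQ n)), FS P 𝔲 k W → ∀ X ∈ 𝔲, ∀ g ∈ P,
  ∃ M : ℕ, 1 ≤ M ∧ ∃ h ∈ P, (IsNilpotent.exp X * qg g) ^ M = qg h

/-- **EG** (eigenvalues). Let `y = exp X * qg g`, `l` an eigenvalue of `y` over `KB`, `y w = l w`, `w ≠ 0`. Let `W_K i` be the `KB`-span of `W i` in `Fin n → KB`, and `i` minimal with `w ∈ W_K (i + 1)` (`w ∉ W_K i`). `exp (-X) v ≡ v` modulo `W_K i` for `v ∈ W_K (i + 1)`, so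
`g w - l w ∈ W_K i`. The map `g - l` maps `W_K (i + 1)` to itself and `W_K i` to itself and is not injective on `W_K (i + 1) / W_K i`, so not surjective on the quotient, so not surjective and not injective on `W_K (i + 1)`: `l` is an eigenvalue of `g`. -/
def EG_stmt : Prop := ∀ (n : ℕ) (P : Subgroup (SLZ n)) (𝔲 : Submodule ℚ (MQ n)) (k : ℕ)
  (W : ℕ → Submodule ℚ (VQ n)), FS P 𝔲 k W → ∀ X ∈ 𝔲, ∀ g ∈ P, Neat (IsNilpotent.exp X * qg g)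

/-- **NX** (from FF, GE, GI, JE, JZ, JN, PW, EG, ZG, RU, EI, EXJ; the semisimple case). For generic `u`: `y = exp X g`, `X ∈ 𝔣`, fixes `u`; `y = s exp N_y` (JE), `N_y ≡ X + N_g ≡ X` modulo `𝔲` (FF (4)); `s ∈ ZQ {y ^ j}` (JZ) fixes `u` (a linear condition), `s = exp (-N_y) exp X g = exp Z g` with
`Z ≡ X - N_y ≡ 0`, `Z ∈ 𝔲`: so `SolvG 𝔲 (qg g) ⊥ u`. GE with `𝔢 = 𝔲`, `i = 0` (`Gen Q` implies not `Gen (¬ Q)`): `RF` family `g̃ u ∈ Ex 𝔲`, `g̃(u) g u = u`. `y u = g̃ u * qg g`. (i) `y u ∈ ZQ (fixP P u)`: PW: `(y u) ^ M = qg h`, `h ∈ P` fixes `u`; EG: `Neat (y u)`; JN with `k = 1`: `y u ∈ ZQ {(y u) ^ (M j)} ⊆ ZQ (fixP P u)`.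
(ii) Let `u ≠ 0` and suppose `y w ∈ span {u, w}` for all `w` (`y = y u`). Then there is `a ∈ ℚ` with `y w - a w ∈ ℚ u` for all `w` (standard; `n = 2` is clear), `det y = a ^ (n - 1) = 1` (`y ∈ 𝒫`, ZG), so `a = ± 1`. If `a = -1` then `-1` is an eigenvalue (`y w = -w + b u`: `w - (b / 2) u`), against `Neat`. If `a = 1` then `(y - 1) ^ 2 = 0`; `y = exp Z g`, `Z ∈ 𝔲`: `g`
acts on `W (i + 1) / W i` as `y`, so `(g - 1) ^ 2 W (i + 1) ⊆ W i` and `g - 1` is nilpotent, a contradiction. -/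
def NX_stmt : Prop := ∀ (n : ℕ), 2 ≤ n → ∀ (P : Subgroup (SLZ n)) (𝔲 : Submodule ℚ (MQ n)) (k : ℕ)
  (W : ℕ → Submodule ℚ (VQ n)), FS P 𝔲 k W → (∃ u : VQ n, ∀ X ∈ 𝔲, X *ᵥ u = 0 → X = 0) →
  (∀ g ∈ P, Gen (SolvG (ff P 𝔲) (qg g) ⊥)) →
  (∃ g ∈ P, ¬ IsNilpotent (qg g - 1) ∧ ∃ s N : MQ n, JD (qg g) s N ∧ N ∈ 𝔲) → RFam P

/-- **MX** (from FF, AD, GI, JE, JZ, PW, CRA, ZG, ZC, ZE, RU, RS, EI, EXJ; the mixed case). `𝔣 = ff P 𝔲`. (1) For generic `u` some `1 ≠ g ∈ P` fixes `u` (`GStar`) and `X ↦ X u` is injective on `𝔲` (GI). `g - 1` is not nilpotent (otherwise `g = exp X`, `X ∈ 𝔲`, `X u = 0`, `X = 0`), so `N_g ∉ 𝔲`; `exp N_g ∈ ZQ {g ^ j}` (JZ) fixes `u`, so `N_g u = 0` (EXJ), `0 ≠ N_g ∈ 𝔣`. So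
(GI for `𝔣`) for EVERY `u` some `0 ≠ X ∈ 𝔣` kills `u`; CRA for a basis `X_i` of `𝔣`: `N(u) = ∑ c_i(u) X_i ∈ 𝔣`, `N(u) u = 0`, `N(u) ≠ 0` for generic `u`. (2) There is a finite set `G₀ ⊆ P` with `𝔣 = 𝔲 + span {N_g : g ∈ G₀}` (finite dimension). For generic `u`: `N(u) ≠ 0`, injectivity on `𝔲`, and all `g ∈ G₀` are solvable: `S(u) = {g ∈ P : SolvG 𝔣 (qg g) ⊥ u}` contains `G₀` and is a
subgroup of `P` (FF (2), (3): `exp X g exp Y h = exp X exp (g Y g⁻¹) g h`; inverses similarly). `N(u) ≡ ∑ q_g N_g` modulo `𝔲`, `q_g ∈ ℚ`; with a common denominator `m ≥ 1`, by AD there is `p ∈ S(u)` (a product of powers of the `g ∈ G₀`) with `N_p ≡ m N(u)` modulo `𝔲`. (3) `y = exp X p` fixes `u`, `X ∈ 𝔣`, `y = s exp N_y`, `N_y ≡ X + N_p ≡ X + m N(u)` (FF (4)). `s ∈ 𝒫` fixes `u` (JZ),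
`y' = exp (m N(u)) s = exp (m N(u)) exp (-N_y) exp X p = exp Z p`, `Z ≡ m N(u) - N_y + X ≡ 0`, `Z ∈ 𝔲`. `exp (t N(u))` and `s` are in `𝒫` and fix `u`, so they commute (the commutator is `exp Z'`, `Z' ∈ 𝔲`, `Z' u = 0`), so `s`, `N(u)` commute (EI for `t = 1`: `s N(u) s⁻¹ = N(u)`) and `JD y' s (m N(u))`. PW: `y' ^ M = qg h`, `h ∈ P`, `M ≥ 1`, it fixes `u`; `JD (y' ^ M) (s ^ M) (M m N(u))`
(`s ^ M` is semisimple), so by JZ `exp (x N(u)) ∈ ZQ {(y' ^ M) ^ j} ⊆ ZQ (fixP P u)` for all `x`. So `y u := exp (N u)` (`RF`). (4) Let `k'` be minimal with `W k' = ⊤` (`k' ≥ 1`, since `n ≥ 1` as `N(u) ≠ 0`). For generic `u` `u ∉ W (k' - 1)`. `N = N(u) ≠ 0` is nilpotent: choose `w` with `N w ≠ 0`, `N ^ 2 w = 0`; if `exp N w = w + N w ∈ span {u, w}` then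
`N w = a w + b u`, applying `N`: `0 = a N w`, `a = 0`, `b ≠ 0`, `u ∈ N W (k') ⊆ W (k' - 1)`, a contradiction. -/
def MX_stmt : Prop := ∀ (n : ℕ) (P : Subgroup (SLZ n)) (𝔲 : Submodule ℚ (MQ n)) (k : ℕ)
  (W : ℕ → Submodule ℚ (VQ n)), FS P 𝔲 k W → (∃ u : VQ n, ∀ X ∈ 𝔲, X *ᵥ u = 0 → X = 0) →
  (∀ g ∈ P, Gen (SolvG (ff P 𝔲) (qg g) ⊥)) → GStar (P : Set (SLZ n)) →
  (∀ g ∈ P, ∀ s N : MQ n, JD (qg g) s N → N ∈ 𝔲 → IsNilpotent (qg g - 1)) → RFam P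

end Pool.Agent.BS
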