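import Pool.Agent.helper73.BS.Spec

/-!
# Project bs (MP_a2a22c_al), blocks D (density), E (steps), F (structure), G (Hirsch lengths)

Row `bs:XX` proves `theorem XX (hYY : YY_stmt) ... : XX_stmt` (the hypotheses are in its lock note) in
`Pool/Agent/<seat>/BS/XX.lean`, `import Pool.Agent.helper73.BS.Spec2`, namespace `Pool.Agent.BS`, auxiliary
lemmas with the prefix `XX_`.

ASSEMBLY (helper73). FSE: a solvable `P ≤ SL(n, ℤ)` has a subgroup `P₁` which contains a power of every element of `P` and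
an `FS P₁ 𝔲 k W` (FU, FC, UT, SC, FL, NE). FAM: `FS P 𝔲 k W`, `PStar P`, `n ≥ 2` imply `Star 𝔲` or `RFam P`: if not `Star 𝔲` then
let `I` be a maximal set of indices `< k` such that `P_I` (the elements of `P` which are trivial on `W (i + 1) / W i` for `i ∈ I`)
satisfies `GStar`; `FS.sub`; CL, and NX or MX for `P_I`. PD: `RFam H` implies `St n ≤ Zc (H ⊓ St n)` (PT, PU, PV).
THEOREM B (`n ≥ 3`, `H` Zariski dense, `P ≤ H` solvable, `PStar P`: `H` has finite index) by induction on `n`: FSE, ST, CJ, so `RedV P e0`,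
`n = m + 1`. FSE again. If `P` contains a transvection `tv e0 τ ≠ 1`: TR. Otherwise QB: `Hb P` is solvable, `PStar (Hb P)`. `m = 2`:
N2P and FSE give a contradiction. `m ≥ 3`: FAM. If `Star 𝔲`: Theorem G (`UG.G0`). If `RFam P`: PD, HZ, the induction hypothesis for
`Hb P ≤ Hb H`, C1. Finally HV: `Hi n P` implies `PStar P`.
-/

set_option autoImplicit false

namespace Pool.Agent.BS

open Matrix Module Pool.Agent.UG Pool.Agent.H48SL Pool.Agent.SHL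

/-! ### D. Density of the stabiliser -/

/-- **PT** (from `UG.PRM_stmt`; transport of the family). `y`, `RF y` with `d`, `G`, nonzero polynomials `f₁` (`y u ∈ ZQ (fixP H u)` if `f₁ u ≠ 0`) and `f₂` (the `w` exists if `f₂ u ≠ 0`). For `h ∈ SLZ (n + 2)` let
`u_h = qg h⁻¹ *ᵥ e0`, `Y h = qg h * y u_h * qg h⁻¹`. (1) `h ∈ H`, `f₁ u_h ≠ 0`: `Y h ∈ ZQ (mz (H ⊓ St))`: conjugation by `h` is linear and maps `fixP H u_h` to `mz (H ⊓ St)`. (2) The same for ALL `h ∈ SLZ (n + 2)` with `d(u_h) f₁(u_h) ≠ 0`: let `F` vanish on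
`mz (H ⊓ St)`, of total degree `≤ D`. `Φ h = f₁(u_h) d(u_h) ^ D F(Y h)` is an `IsPolyQ` function of `h` (precisely: every monomial `∏ x_ij` of degree `r ≤ D` gives `d ^ (D - r) ∏ (d Y)_ij`, and `d(u_h) Y h` has polynomial entries where `d(u_h) ≠ 0`; a convenient way:
prove by `MvPolynomial.induction_on` for every `F` that there are `D` and an `IsPolyQ` function `Φ` with `Φ h = d(u_h) ^ D F(Y h)` whenever `d(u_h) ≠ 0`, and multiply by `f₁(u_h) d(u_h)`; `IsPolyQ.entry_inv` for `u_h`, `mulVec_e0`). `Φ` vanishes on `H`, so everywhere (`IsPolyQ.dense`). (3) By PRM there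
is `h` with `(d f₁ f₂)(u_h) ≠ 0` (PRM gives `h'` with value `≠ 0` at `h' e0`; `h = h'⁻¹`). `x = Y h`. For `fx s`: `u_{s h} = u_h` (`s⁻¹ e0 = e0`), `qg s * x * qg s⁻¹ = Y (s h)`. `w` for `u_h`: `x (h w) = h (y u_h w) ∉ h (span {u_h, w}) = span {e0, h w}`. -/
def PT_stmt : Prop := ∀ (n : ℕ) (H : Subgroup (SLZ (n + 2))), ZDense H → RFam H →
  ∃ x : MQ (n + 2), (∀ s : SLZ (n + 2), fx s → qg s * x * qg s⁻¹ ∈ ZQ (mz (H ⊓ St (n + 1)))) ∧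
    ∃ w : VQ (n + 2), x *ᵥ w ∉ Submodule.span ℚ {e0 (n + 1), w}

/-- **PU** (from `UG.EXI_stmt`, `UG.LG_stmt`; a unipotent element; compare `UG.NSG_stmt` and `Pool/Agent/helper65/UG/NSG.lean`). Bars are blocks / tails: for `a ∈ Z` `a e0 = e0`, so the block `ā = dn a` is multiplicative (`dn_mul`), `det ā = 1`. (1) The tail `w̄` of `w` satisfies `x̄ w̄ ∉ ℚ w̄`; scale
it to an integer vector `ē`. Let `0 ≠ φ̄` be an integer row with `φ̄ ē = 0`, `τ = tv (0, ē) (0, φ̄) ∈ St`, `τ̄ = 1 + ē ⊗ φ̄`. `y = x τ x⁻¹ τ⁻¹ ∈ Z` (`τ x⁻¹ τ⁻¹ ∈ Z`). `ȳ = (1 + (x̄ ē) ⊗ (φ̄ x̄⁻¹)) (1 - ē ⊗ φ̄) ≠ 1` (otherwise `(x̄ ē) ⊗ (φ̄ x̄⁻¹) = ē ⊗ φ̄`, so `x̄ ē ∈ ℚ ē`). (2) As `n ≥ 3` there is an integer vector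
`p̄ ≠ 0` with `φ̄ p̄ = 0`, `φ̄ x̄⁻¹ p̄ = 0` (rational, clear denominators); `p = (0, p̄)`. `φ p = 0` and `(φ x⁻¹) p = 0` (`φ x⁻¹ = (0, φ̄ x̄⁻¹)`), so `y p = p`, `ȳ p̄ = p̄`. (3) Case A: some integer row `ψ̄` with `ψ̄ p̄ = 0` has `ψ̄ ȳ⁻¹ ≠ ψ̄`. `ψ = (0, ψ̄)`, `t = tv p ψ ∈ St`, `z' = y t y⁻¹ t⁻¹ ∈ Z`,
`z' = (1 + p ⊗ ψ y⁻¹) (1 - p ⊗ ψ) = 1 + p ⊗ θ`, `θ = ψ y⁻¹ - ψ` rational, `θ p = 0` (`y⁻¹ p = p`), `θ = (0, θ̄)`, `θ̄ ≠ 0`; for `m ≥ 1` with `m θ` integral `z = tv p (m θ)`, `qg z = z' ^ m ∈ Z`. (4) Case B: otherwise `ψ̄ (ȳ - 1) = 0` for all rational `ψ̄` with `ψ̄ p̄ = 0`, so `ȳ - 1 = p̄ ⊗ θ̄`, `θ̄ p̄ = 0` (as `ȳ p̄ = p̄`),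
`(ȳ - 1) ^ 2 = 0`, so `(y - 1) ^ 3 = 0` (`(y - 1) e0 = 0`). LG: `y = exp X`, `X` nilpotent; EXI: `y ^ k = exp (k X) = qg z` with `z ∈ SLZ (n + 1)`, `k ≥ 1` (EXJ (a) or `IsNilpotent.exp_nsmul`-like), `qg z ∈ Z`, `fx z`, block `ȳ ^ k = 1 + k (ȳ - 1) ≠ 1`. -/
def PU_stmt : Prop := ∀ (n : ℕ), 3 ≤ n → ∀ Z : Set (MQ (n + 1)), (∀ a ∈ Z, ∀ b ∈ Z, a * b ∈ Z) →
  (∀ a ∈ Z, a.det = 1 ∧ a⁻¹ ∈ Z ∧ a *ᵥ e0 n = e0 n) →
  (∀ s : SLZ (n + 1), fx s → ∀ a ∈ Z, qg s * a * qg s⁻¹ ∈ Z) →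
  ∀ x ∈ Z, (∃ w : VQ (n + 1), x *ᵥ w ∉ Submodule.span ℚ {e0 n, w}) →
  ∃ z : SLZ (n + 1), fx z ∧ qg z ∈ Z ∧ dn (qg z) ≠ 1 ∧ IsNilpotent (qg z - 1)

/-- **PV** (from `UG.NSG_stmt`). The block group `N̄ = Hb N` is normal in `SLZ n` (`exists_up`), contains `z̄ ≠ 1` unipotent, so it has finite index (NSG); there is `k ≥ 1` with `xe i j k ∈ N̄` for all `i ≠ j` (`k = index!` or `exists_pow_mem`). (1) For `g ∈ N`, `t = tv e0 φ`, `φ_0 = 0` (so `t ∈ St n`):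
`t g t⁻¹ g⁻¹ = tv e0 (φ - φ g⁻¹) ∈ N` (`tv_conj`, `g e0 = e0`). With `g` a lift of `xe i j k`, `φ = e_{i+1}`: `φ - φ g⁻¹ = k e_{j+1}`, so `tv e0 (k e_{j+1}) ∈ N` for all `j` (choose `i ≠ j`). (2) `tv e0 (t e_{j+1}) ∈ Zc N` for all `t ∈ ℤ` (`IsPoly.line`: a polynomial in `t` which vanishes at the multiples of `k`), so
`tv e0 φ ∈ Zc N` for all `φ` with `φ_0 = 0` (products). (3) For `i ≠ j` in `Fin n` the lift `g ∈ N` of `xe i j k` is `tv e0 φ * xe i.succ j.succ k` for some `φ` (same block), so `xe i.succ j.succ k ∈ Zc N`, and the same for all its powers, so `xe i.succ j.succ t ∈ Zc N` for all `t ∈ ℤ` as in (2). (4) By `ES_univ` the `xe i j t` generate `SLZ n`, so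
every `s ∈ St n` has the same block as an element of `Zc N ⊓ St n` (the subgroup generated by the `xe i.succ j.succ t`), and `s = tv e0 φ * ` that element. -/
def PV_stmt : Prop := ∀ (n : ℕ), 3 ≤ n → ∀ N : Subgroup (SLZ (n + 1)), N ≤ St n →
  (∀ s ∈ St n, ∀ g ∈ N, s * g * s⁻¹ ∈ N) →
  ∀ z ∈ N, dn (qg z) ≠ 1 → IsNilpotent (qg z - 1) → St n ≤ Zc N

/-- **HZ**. A polynomial in the entries of the block is a polynomial in the entries (`MvPolynomial.rename`); it vanishes on `H ⊓ St n`, so on `St n`; `exists_up`, `mem_Hb`. -/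
def HZ_stmt : Prop := ∀ (n : ℕ) (H : Subgroup (SLZ (n + 1))), St n ≤ Zc (H ⊓ St n) → ZDense (Hb H)

/-- **C1** (from `UG.H1_stmt`, `UG.EFI_stmt`, `UG.TRV_stmt`; compare `UG.CLA_stmt` and `Pool/Agent/helper91/UG/CLA.lean`). If there is `τ ≠ 0`, `τ_0 = 0`, `tv e0 τ ∈ H`: TRV. Suppose not; `G = H ⊓ St n`. (i) `h ∈ G` with block `1` is `1` (its first row is `(1, τ')`, `h = tv e0 (0, τ')`). (ii) There is `k ≥ 1` with `xe i j k ∈ Hb H` for all `i ≠ j`. Choose lifts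
`g i j ∈ G` and `ψ` (`ψ 0 = 1`) from H1. `E` = the subgroup generated by the `g i j`, `ψ ᵥ* qg ε = ψ` for `ε ∈ E`, `E ≤ G`. `Hb E` has finite index (EFI), `J` = a positive integer with `s ^ J ∈ Hb E` for all `s ∈ SLZ n` (the factorial of the index). (iii) For `h ∈ G`: block of `h ^ J` = block of some `ε ∈ E`, so `h ^ J = ε` by (i): `ψ ᵥ* qg h ^ J = ψ`.
(iv) The components of `ψ ᵥ* qg h ^ J - ψ` are `IsPolyQ` functions of `h` which vanish on `G`, so on `Zc G ≥ St n` (clear denominators, `clear_poly`, as in `IsPolyQ.dense`). But for `h = tv e0 τ`, `τ = e_1` (`Pi.single 1 1`): `ψ ᵥ* qg h ^ J = ψ + J ψ_0 τ ≠ ψ`. -/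
def C1_stmt : Prop := ∀ (n : ℕ), 3 ≤ n → ∀ H : Subgroup (SLZ (n + 1)), ZDense H →
  St n ≤ Zc (H ⊓ St n) → (Hb H).FiniteIndex → H.FiniteIndex

/-! ### E. Steps of the induction -/

/-- **ST** (the common vector). Let `i` be minimal with `W (i + 1) ≠ ⊥`, so `W i = ⊥`, and `V₁ = W (i + 1)`; any `0 ≠ v ∈ V₁` works. By `schur` every `g ∈ P` is trivial on `V₁` or has no fixed vector `≠ 0` in `V₁`; the elements of `P` commute on `V₁` (`com`, `down`). `Q` = the `g ∈ P` which are trivial on `V₁`. Let `u` be a vector, `Q(u)` = the `g ∈ Q` with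
`f g = g u - u ∈ V₁`; `f : Q(u) → V₁` is additive. CLAIM: for every `v ∈ V₁` some `g ∈ Q(u)` of infinite order has `f g ∈ ℚ v` (then `g v = v`, so `RedV P v`). For `w ∈ V₁` let `g_w ∈ P` be of infinite order with `g_w (u + w) = u + w` (`PStar`). (1) If `g_w ∈ Q` for some `w` then `g_w u = u`: done for all `v`. (2) Otherwise no `g_w` has a fixed
vector `≠ 0` in `V₁`, `g_w - 1` is bijective on `V₁`. `P(u)` = the `g ∈ P` with `g u - u ∈ V₁`, it contains the `g_w`. `T` = the span of `f(Q(u))`; it is stable under `P(u)` (`f (g q g⁻¹) = g (f q)`), so `g_w T = T` and `g_w - 1` is bijective on `T` and injective on `V₁ / T`. If `T ≠ V₁` choose `w ∈ V₁`, `w ∉ T`. `c = [g_0, g_w] ∈ Q(u)` (it is trivial on `V₁`), so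
`g_0 g_w u ≡ g_w g_0 u` modulo `T`, (`c (g_w g_0 u) = g_0 g_w u`, `g_w g_0 u ∈ u + V₁`, `c` moves it by `f c ∈ T`). `g_0 u = u`, `g_w u = u + w - g_w w`: `u + g_0 (w - g_w w) ≡ u + w - g_w w`, so `w - g_w w ∈ T` (injectivity of `g_0 - 1` modulo `T`), so `w ∈ T`, a contradiction. So `T = V₁` and for every `v ∈ V₁` some multiple `m v`, `m ≥ 1`, is in the additive group
`f(Q(u))` (clear denominators); for `v ≠ 0` the `g` with `f g = m v ≠ 0` has infinite order (`f (g ^ j) = j m v`). -/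
def ST_stmt : Prop := ∀ (n : ℕ), 1 ≤ n → ∀ (P : Subgroup (SLZ n)) (𝔲 : Submodule ℚ (MQ n)) (k : ℕ)
  (W : ℕ → Submodule ℚ (VQ n)), FS P 𝔲 k W → PStar P → ∃ v : VQ n, v ≠ 0 ∧ RedV P v

/-- **TR** (from `UG.EXJ_stmt`; a transvection in `P`; compare `UG.R1_stmt` and `Pool/Agent/helper8/UG/R1.lean`). `z = tv e φ ≠ 1`, so `e ≠ 0`, `φ ≠ 0`; `qg z = exp X`, `X ∈ 𝔲` (`uni`). Choose `u` with `φ u ≠ 0` and `g ∈ P` of infinite order with `g u = u` (`PStar`). `g X g⁻¹ ∈ 𝔲` (`conj`), `exp X exp (g X g⁻¹) = exp Z`, `Z ∈ 𝔲` (`grp`) nilpotent (`fil_one_nil`, `mem_fil_one`), so `z g z g⁻¹ - 1`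
is nilpotent and its trace is `0`; the trace of `z (g z g⁻¹) = (1 + e ⊗ φ) (1 + (g e) ⊗ (φ g⁻¹))` is `n + φ(g e) φ(g⁻¹ e)`. So `φ(g e) = 0` or `φ(g⁻¹ e) = 0`; let `g' = g` or `g⁻¹` accordingly. `final_coef` (`Pool/Agent/helper48/SLn/Final.lean`) for `z`, `g'`, last alternative: if `g' ^ a = z ^ b`, `a ≥ 1`, then `u = z ^ b u = u + b (φ u) e`, `b = 0`, `g ^ a = 1`, a contradiction. -/
def TR_stmt : Prop := ∀ (n : ℕ), 3 ≤ n → ∀ H P : Subgroup (SLZ n), ZDense H → P ≤ H →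
  ∀ (𝔲 : Submodule ℚ (MQ n)) (k : ℕ) (W : ℕ → Submodule ℚ (VQ n)), FS P 𝔲 k W → PStar P →
  ∀ e φ : Fin n → ℤ, φ ⬝ᵥ e = 0 → tv e φ ≠ 1 → tv e φ ∈ P → H.FiniteIndex

/-- **N2P** (from `UG.EXJ_stmt`; dimension `2`). Let `i` be minimal with `W (i + 1) ≠ ⊥` and `0 ≠ v ∈ W (i + 1)`: `X v = 0` for all `X ∈ 𝔲` (`down`). Let `u ∉ ℚ v` and `g ∈ P` of infinite order with `g u = u`. `det g = 1` and the eigenvalue `1`: the trace of `g` is `2`, `(g - 1) ^ 2 = 0` (Cayley-Hamilton). `g = exp X`, `X ∈ 𝔲`, `X u = 0` (EXJ (b)), `X v = 0`: `X = 0`, `g = 1`. -/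
def N2P_stmt : Prop := ∀ (P : Subgroup (SLZ 2)) (𝔲 : Submodule ℚ (MQ 2)) (k : ℕ) (W : ℕ → Submodule ℚ (VQ 2)),
  FS P 𝔲 k W → ¬ PStar P

/-- **CJ** (change of basis; compare `UG.CNJ_stmt`, `Pool/Agent/helper78/UG/CNJ.lean`). Scale `v` to a primitive integer vector and take `g ∈ SLZ (n + 1)` with `g e0 = v`; `H' = g⁻¹ H g`, `P' = g⁻¹ P g`. -/
def CJ_stmt : Prop := ∀ (n : ℕ), 1 ≤ n → ∀ H P : Subgroup (SLZ (n + 1)), ZDense H → P ≤ H →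
  Group.IsSolvable P → PStar P → ∀ v : VQ (n + 1), v ≠ 0 → RedV P v →
  ∃ H' P' : Subgroup (SLZ (n + 1)), (H'.FiniteIndex → H.FiniteIndex) ∧ ZDense H' ∧ P' ≤ H' ∧
    Group.IsSolvable P' ∧ PStar P' ∧ RedV P' (e0 n)

/-- **QB** (the quotient). `Hb P` is a quotient of a subgroup of `P`, so it is solvable. For `ū` let `u = (0, ū)` (`Fin.cons 0 ū`), `g ∈ P` from `RedV`: `fx g`, `g u - u = c e0`, so the block `ḡ` fixes `ū`. If `ḡ ^ j = 1`, `j ≥ 1`, then `g ^ j` has block `1` and fixes `e0`: it is `tv e0 τ` with `τ` its first row minus `(1, 0)`, so `g ^ j = 1`, a contradiction. -/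
def QB_stmt : Prop := ∀ (n : ℕ) (P : Subgroup (SLZ (n + 1))), Group.IsSolvable P → RedV P (e0 n) →
  (∀ τ : Fin (n + 1) → ℤ, τ 0 = 0 → tv (Pi.single 0 1) τ ∈ P → tv (Pi.single 0 1) τ = 1) →
  Group.IsSolvable (Hb P) ∧ PStar (Hb P)

/-! ### F. The structure of solvable groups -/

/-- **FU** (from `PR.Z_MAL_stmt`, `PR.Z_UNIP_stmt`). `K = KB`, `V = Fin n → KB`, `ρ g` = the matrix of `g` over `KB` (injective). Z-MAL for the group `P`: a subgroup `G₁` of finite index of `P`, triangularisable. Z-UNIP for `G₁`: `U₀` = the set of the `g ∈ G₁` with `ρ g - 1` nilpotent (over `KB`, or over `ℚ`, the same), a normal subgroup which contains the commutators.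
`P₁` = the `g ∈ G₁` with `g ≡ 1` modulo `3` (finite index in `G₁`: the kernel of the reduction to `SL(n, ZMod 3)`), `U = U₀ ⊓ P₁`. Powers: `Subgroup.exists_pow_mem_of_index_ne_zero` or similar. -/
def FU_stmt : Prop := ∀ (n : ℕ) (P : Subgroup (SLZ n)), Group.IsSolvable P → ∃ P₁ U : Subgroup (SLZ n),
  P₁ ≤ P ∧ U ≤ P₁ ∧ (∀ g ∈ P, ∃ j : ℕ, 0 < j ∧ g ^ j ∈ P₁) ∧
  (∀ g ∈ P₁, ∀ i j, (3 : ℤ) ∣ (g : Matrix (Fin n) (Fin n) ℤ) i j - (1 : Matrix (Fin n) (Fin n) ℤ) i j) ∧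
  (∀ g ∈ P₁, (g ∈ U ↔ IsNilpotent (qg g - 1))) ∧
  (∀ g ∈ P₁, ∀ h ∈ P₁, g * h * g⁻¹ * h⁻¹ ∈ U)

/-- **FC** (a flag with irreducible steps). `W 0 = ⊥`; if `W i ≠ ⊤` then `W (i + 1)` is a `P`-stable subspace `> W i` of minimal dimension, `W (i + 1) = ⊤` if `W i = ⊤`. `W n = ⊤`. -/
def FC_stmt : Prop := ∀ (n : ℕ) (P : Subgroup (SLZ n)), ∃ (k : ℕ) (W : ℕ → Submodule ℚ (VQ n)),
  Monotone W ∧ W 0 = ⊥ ∧ W k = ⊤ ∧ (∀ g ∈ P, ∀ i, ∀ w ∈ W i, qg g *ᵥ w ∈ W i) ∧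
  ∀ i, ∀ M : Submodule ℚ (VQ n), W i ≤ M → M ≤ W (i + 1) → (∀ g ∈ P, ∀ w ∈ M, qg g *ᵥ w ∈ M) →
    M = W i ∨ M = W (i + 1)

/-- **UT** (from `UG.KOL_stmt`; normal unipotent subgroups are trivial on the steps). KOL: products of `≥ N` matrices `qg a - 1`, `a ∈ U`, are `0`. `M = W i ⊔ span {(a - 1) w : a ∈ U, w ∈ W (i + 1)}` is between `W i` and `W (i + 1)` and `P`-stable (`g (a - 1) w = (g a g⁻¹ - 1) g w`). If `M = W i` we are done. If `M = W (i + 1)` then by induction on `j`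
`W (i + 1) = W i ⊔ span {(a_1 - 1) ... (a_j - 1) w}` (the `a`'s preserve `W i`), for `j = N` `W (i + 1) = W i` and the claim is clear (`a w - w ∈ W (i + 1)`). -/
def UT_stmt : Prop := ∀ (n : ℕ) (P U : Subgroup (SLZ n)) (W : ℕ → Submodule ℚ (VQ n)), Monotone W →
  (∀ g ∈ P, ∀ i, ∀ w ∈ W i, qg g *ᵥ w ∈ W i) →
  (∀ i, ∀ M : Submodule ℚ (VQ n), W i ≤ M → M ≤ W (i + 1) → (∀ g ∈ P, ∀ w ∈ M, qg g *ᵥ w ∈ M) →
    M = W i ∨ M = W (i + 1)) →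
  U ≤ P → (∀ a ∈ U, IsNilpotent (qg a - 1)) → (∀ g ∈ P, ∀ a ∈ U, g * a * g⁻¹ ∈ U) →
  ∀ a ∈ U, ∀ i, ∀ w ∈ W (i + 1), qg a *ᵥ w - w ∈ W i

/-- **SC** (from JE, ZG; Schur's lemma on the steps). For `g, h ∈ P`, `w ∈ W (i + 1)`: `g h w - h g w = (c - 1) (h g w) ∈ W i`, `c = [g, h]`. (1) `M = {w ∈ W (i + 1) : g w - w ∈ W i}` is between `W i` and `W (i + 1)` and `P`-stable, so it is `W (i + 1)` or `W i`. (2) `y ∈ 𝒫`: `y W j ⊆ W j` for all `j` and `y h w - h y w ∈ W i` for `h ∈ P`, `w ∈ W (i + 1)`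
(linear conditions on `y` which hold on `P`; a linear condition is the vanishing of a linear polynomial). `det y = 1` (ZG). JE: `N ∈ adjoin {y}`, so `N` preserves all `W j` and commutes with `h ∈ P` modulo `W i` on `W (i + 1)` (induction over polynomials in `y`). `M = {w ∈ W (i + 1) : N w ∈ W i}` is `P`-stable. If `M = W i` and `w ∈ W (i + 1)`, `w ∉ W i`, let `r` be
maximal with `N ^ r w ∉ W i` (`N` is nilpotent): `N ^ r w ∈ M`, a contradiction. So `M = W (i + 1)` or `W (i + 1) = W i`; in both cases the claim holds. -/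
def SC_stmt : Prop := ∀ (n k : ℕ) (P : Subgroup (SLZ n)) (W : ℕ → Submodule ℚ (VQ n)), Monotone W →
  W 0 = ⊥ → W k = ⊤ → (∀ g ∈ P, ∀ i, ∀ w ∈ W i, qg g *ᵥ w ∈ W i) →
  (∀ i, ∀ M : Submodule ℚ (VQ n), W i ≤ M → M ≤ W (i + 1) → (∀ g ∈ P, ∀ w ∈ M, qg g *ᵥ w ∈ M) →
    M = W i ∨ M = W (i + 1)) →
  (∀ g ∈ P, ∀ h ∈ P, ∀ i, ∀ w ∈ W (i + 1), qg (g * h * g⁻¹ * h⁻¹) *ᵥ w - w ∈ W i) →
  (∀ g ∈ P, ∀ i, (∀ w ∈ W (i + 1), qg g *ᵥ w - w ∈ W i) ∨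
    (∀ w ∈ W (i + 1), qg g *ᵥ w - w ∈ W i → w ∈ W i)) ∧
  ∀ y ∈ ZQ (mz P), ∀ s N : MQ n, JD y s N → ∀ i, ∀ w ∈ W (i + 1), N *ᵥ w ∈ W i

/-- **FL** (from `UG.MAL_stmt`, LG, EXJ, EI; the Lie algebra). `qg a - 1 ∈ fil W 1` for `a ∈ A`, so products of `k` such matrices are `0`: `UNil A`. MAL: `𝔲`. `X ∈ 𝔲`: `exp (k X) = qg a`, `k X = aeval (qg a - 1) P ∈ fil W 1` (LG), so `X ∈ fil W 1`. Conjugation: `exp (k g X g⁻¹) = g a g⁻¹ ∈ A`, so it is `exp X'`, `X' ∈ 𝔲`, and `k g X g⁻¹ = X'` (EI).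
Products: let `X, Y ∈ 𝔲`, `k, l ≥ 1` with `exp (k X), exp (l Y) ∈ A`. `D(t, t') = aeval (exp (t X) exp (t' Y) - 1) P` is in `𝔲` for `t ∈ k ℕ`, `t' ∈ l ℕ` (`exp (t X) exp (t' Y) ∈ A` is `exp Z`, `Z ∈ 𝔲`, and `D = Z` by LG). For fixed `t'` it is a polynomial curve in `t` (`PC`; it is a finite sum of products, `exp (t X) exp (t' Y) - 1 ∈ fil W 1`), so for every linear form vanishing on `𝔲`
it vanishes at infinitely many `t`, so `D(t, t') ∈ 𝔲` for all `t` and `t' ∈ l ℕ`; then the same for `t'`. `Z = D(1, 1)`, `exp Z = exp X exp Y` (LG). -/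
def FL_stmt : Prop := ∀ (n k : ℕ) (A : Subgroup (SLZ n)) (W : ℕ → Submodule ℚ (VQ n)), Monotone W →
  W 0 = ⊥ → W k = ⊤ → (∀ a ∈ A, ∀ i, ∀ w ∈ W (i + 1), qg a *ᵥ w - w ∈ W i) →
  ∃ 𝔲 : Submodule ℚ (MQ n), (∀ X ∈ 𝔲, ∀ i, ∀ w ∈ W (i + 1), X *ᵥ w ∈ W i) ∧
    (∀ X ∈ 𝔲, ∀ Y ∈ 𝔲, ∃ Z ∈ 𝔲, IsNilpotent.exp X * IsNilpotent.exp Y = IsNilpotent.exp Z) ∧
    (∀ X ∈ 𝔲, ∃ j : ℕ, 1 ≤ j ∧ ∃ a ∈ A, qg a = IsNilpotent.exp ((j : ℚ) • X)) ∧
    (∀ a ∈ A, ∃ X ∈ 𝔲, qg a = IsNilpotent.exp X) ∧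
    (∀ g : SLZ n, (∀ a ∈ A, g * a * g⁻¹ ∈ A) → ∀ X ∈ 𝔲, qg g * X * qg g⁻¹ ∈ 𝔲)

/-- **NE** (neatness). `Λ = {z ∈ KBˣ : (z - 1) / 3 and (z⁻¹ - 1) / 3 are integral over ℤ}`, a subgroup: `(z w - 1) / 3 = z (w - 1) / 3 + (z - 1) / 3`, `z` is integral. Eigenvalues: `g = 1 + 3 A`, `A` an integer matrix, `g w = l w`: `A w = ((l - 1) / 3) w`, so `(l - 1) / 3` is integral (Cayley-Hamilton over `ℤ`); `l ≠ 0` since `det g = 1`; `g⁻¹ = 1 + 3 A'` (`A' = - g⁻¹ A`),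
`g⁻¹ w = l⁻¹ w`. No torsion: let `z ∈ Λ`, `z ≠ 1`, of finite order; a power `ζ` of `z` has prime order `p`, `∏_{1 ≤ i < p} (1 - ζ ^ i) = p` (`IsPrimitiveRoot` lemmas, or `∑_{i<p} X ^ i` at `1`), and all `(1 - ζ ^ i) / 3` are integral, so `p / 3 ^ (p - 1)` is integral and rational, so an integer: `3 ^ (p - 1) ≤ p`, a contradiction. -/
def NE_stmt : Prop := ∀ (n : ℕ) (g : SLZ n),
  (∀ i j, (3 : ℤ) ∣ (g : Matrix (Fin n) (Fin n) ℤ) i j - (1 : Matrix (Fin n) (Fin n) ℤ) i j) → Neat (qg g)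

/-! ### G. Hirsch lengths -/

/-- the stabiliser of `u` -/
def stR {V Q : Type} [AddCommGroup V] [Module ℚ V] [Group Q] (ρ : Q →* Module.End ℚ V) (u : V) :
    Subgroup Q where
  carrier := {g | ρ g u = u}
  one_mem' := by
    show ρ 1 u = u
    rw [map_one]
    rfl
  mul_mem' := by
    intro a b ha hb
    show ρ (a * b) u = u
    have ha' : ρ a u = u := ha
    have hb' : ρ b u = u := hb
    rw [map_mul, Module.End.mul_apply, hb', ha']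
  inv_mem' := by
    intro a ha
    show ρ a⁻¹ u = u
    have ha' : ρ a u = u := ha
    have h1 : ρ a⁻¹ (ρ a u) = u := by
      rw [← Module.End.mul_apply, ← map_mul, inv_mul_cancel, map_one]
      rfl
    rwa [ha'] at h1

theorem mem_stR {V Q : Type} [AddCommGroup V] [Module ℚ V] [Group Q] {ρ : Q →* Module.End ℚ V} {u : V}
    {g : Q} : g ∈ stR ρ u ↔ ρ g u = u := Iff.rfl

/-- **HP** (more on `Hi`). (1) Induction on `N`: intersect `K`, `L` with `H'`, replace `g` by a power in `H'`. (2) Induction on `b`: `K̄ ⊴ L̄ ≤ φ(H)`, `ḡ` as in `Hi (b + 1)`; `K = H ⊓ K̄.comap φ`, `L = H ⊓ L̄.comap φ`, `g ∈ H` with `φ g = ḡ`; `K.map φ = K̄` and `K ⊓ φ.ker = H ⊓ φ.ker`. -/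
def HP_stmt : Prop := ∀ (G : Type) [Group G],
  (∀ (N : ℕ) (H H' : Subgroup G), (∀ x ∈ H, ∃ j : ℕ, 0 < j ∧ x ^ j ∈ H') → Hi N H → Hi N (H' ⊓ H)) ∧
  ∀ (G' : Type) [Group G'] (φ : G →* G') (a b : ℕ) (H : Subgroup G), Hi a (H ⊓ φ.ker) →
    Hi b (H.map φ) → Hi (a + b) H

/-- **DR** (from `SHL.HA_stmt`, `SHL.HB_stmt`, `SHL.HD_stmt`, `SHL.TOR_stmt`, HP, LC; the stabiliser in an affine action). `f g = ρ g u - u ∈ L`, `f (g h) = ρ g (f h) + f g`. `Q'` = the `g` which are trivial on `L`; `f` is additive on `Q'` and `f (g q g⁻¹) = ρ g (f q)` for `q ∈ Q'`. Case 1: `Q' = Q`. HB for `f : Q → Multiplicative L`: `N + dim L = a + b`, `Hi a` for the kernel `stR ρ u`, `b ≤ dim L` by HD; HA (2).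
Case 2: some `g₀ ∈ Q` is not trivial on `L`, so `g₀ - 1` is bijective on `L`. `D` = the span of `f(Q')`, stable under `Q`, `g - 1` is bijective on `D` and on `L / D` for every `g ∉ Q'`. Commutators are in `Q'` and `f([g, h]) ∈ D`; `g₀` has a fixed point `u + w` modulo `D` (`w ∈ L`, `(g₀ - 1) w ≡ - f g₀`), all `g` commute with `g₀` on `(u + L) / D` and fix it:
`f g ≡ w - g w` modulo `D` for all `g`. Case 2a: `w ∉ D`. `L / D ≠ 0`; let `S` be a minimal nonzero `Q`-stable subspace of `L / D` (that is `D < S ≤ L`, with `S / D` irreducible). `Q` acts on `S / D`, commutatively, irreducibly, integrally, with kernel `Q'`. HB for `Q → (End (S / D))ˣ`: `N + dim L = a + c`, `Hi a Q'`, `Hi c` for the range, `c + 1 ≤ dim (S / D)` by TOR (`D = ℚ`, `d = 1`). So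
`a ≥ N + 1 + dim D`, and Case 1 for `Q'` (HB for `f : Q' → D`, HD) gives `Hi N` for `Q' ⊓ stR ρ u`. Case 2b: `w ∈ D`, so `f g ∈ D` for all `g ∈ Q`. HB for the action on `L` (`Q → (End L)ˣ`, kernel `Q'`): `N + dim L = a + b`, `Hi a Q'`, `Hi b` for the image of `Q`. HB, HD for `f : Q' → D`: `a = a' + b'`, `b' ≤ dim D`, `Hi a' (Q' ⊓ stR ρ u)`. For every `g ∈ Q` there are `j ≥ 1`, `q ∈ Q'` with
`q⁻¹ g ^ j ∈ stR ρ u`: LC for `V = D` (or `L`), `A = ρ g`, `B = ρ g⁻¹`, the additive group `f(Q')`, `x = f g` (some multiple `m x`, `m ≥ 1`, is in `f(Q')`, clear denominators): `f (g ^ j) = ∑_{l < j} g ^ l (f g) = f q`, so `f (q⁻¹ g ^ j) = - f q + f (g ^ j) = 0`. So the image of `stR ρ u` in `(End L)ˣ` contains a power of every element of the image of `Q`: `Hi b` for it (HP (1)).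
HP (2) for `stR ρ u`: `Hi (a' + b) (stR ρ u)`, `a' + b ≥ N`; HA (2). -/
def DR_stmt : Prop := ∀ (V : Type) [AddCommGroup V] [Module ℚ V] [FiniteDimensional ℚ V] (Q : Type) [Group Q]
  (ρ : Q →* Module.End ℚ V), (∀ g, IsIntegral ℤ (ρ g)) → ∀ (L : Submodule ℚ V) (u : V),
  (∀ g, ∀ w ∈ L, ρ g w ∈ L) → (∀ g h, ∀ w ∈ L, ρ (g * h) w = ρ (h * g) w) →
  (∀ g, (∀ w ∈ L, ρ g w = w) ∨ (∀ w ∈ L, ρ g w = w → w = 0)) → (∀ g, ρ g u - u ∈ L) →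
  ∀ N : ℕ, Hi (N + finrank ℚ L) (⊤ : Subgroup Q) → Hi N (stR ρ u)

/-- **HL** (from `SHL.HA_stmt`, `SHL.HB_stmt`, `SHL.TOR_stmt`, `SHL.STR_stmt`, DR; stabilisers of nonzero vectors). Induction on `dim V` (for all `Q`, `ρ`, `N`, `u`). STR for `D = ℚ`: `G₁` of finite index, `L ≠ ⊥` stable, commutative on `L`, irreducible. `Hi` for `⊤ : Subgroup G₁` (HA (3), (6)). Every `g ∈ G₁` is trivial on `L` or has no fixed vector `≠ 0` in `L`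
(`{w ∈ L : g w = w}` is `G₁`-stable). Case `u ∈ L`: `stR` in `G₁` is the kernel `K` of the action on `L`; HB for `G₁ → (End L)ˣ`: `N + dim V = a + c`, `Hi a K`, `Hi c` for the range, `c + 1 ≤ dim L` (TOR), so `a ≥ N + 1`; HA (2), (1). Case `u ∉ L`: the induction hypothesis for `V ⧸ L`, the group `G₁`, `N + dim L`: `Hi (N + dim L + 1)` for `Q₁` = the stabiliser of `u + L` in `G₁`; DR for the
group `Q₁`, `L`, `u` and `N + 1`. (To return from subgroups of `G₁` or `Q₁` to subgroups of `Q` use HA (6) for the inclusion, or prove `Hi N H → Hi N (H.map φ)` for injective `φ`: `FLG_map` in `Pool/Agent/helper82/NH/FLG.lean`.) -/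
def HL_stmt : Prop := ∀ (V : Type) [AddCommGroup V] [Module ℚ V] [FiniteDimensional ℚ V] (Q : Type) [Group Q],
  Group.IsSolvable Q → ∀ ρ : Q →* Module.End ℚ V, (∀ g, IsIntegral ℤ (ρ g)) → ∀ (N : ℕ) (u : V), u ≠ 0 →
  Hi (N + finrank ℚ V) (⊤ : Subgroup Q) → Hi (N + 1) (stR ρ u)

/-- **HV** (from `SHL.HA_stmt`, HL). `V = VQ n`, the group `P`, `ρ g = toLin' (qg g)`, integral (Cayley-Hamilton over `ℤ`). `Hi n ⊤` for the group `P` (HA (6)). `u ≠ 0`: HL with `N = 0`: `Hi 1 (stR ρ u)`: `g ∈ L ≤ stR ρ u`, `g ^ j ∉ K`, so `g ^ j ≠ 1` for `j ≥ 1`. `u = 0`: `Hi 1 P` (HA (2)). -/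
def HV_stmt : Prop := ∀ (n : ℕ), 1 ≤ n → ∀ P : Subgroup (SLZ n), Group.IsSolvable P → Hi n P → PStar P

end Pool.Agent.BS
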